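import Mathlib

set_option autoImplicit false

/-!
# PDR-RkJ: the ideal of sequences of endomorphisms whose normalised ranks tend to zero
-/

namespace Pool.Agent.PDR

open Filter

section
variable (k : Type) [Field k] (V : ℕ → Type) [∀ i, AddCommGroup (V i)] [∀ i, Module k (V i)]

/-- The normalised rank of an endomorphism of `V i`. -/
noncomputable def nrk (i : ℕ) (w : Module.End k (V i)) : ℝ :=
  (Module.finrank k (LinearMap.range w) : ℝ) / (Module.finrank k (V i) : ℝ)

theorem nrk_nonneg (i : ℕ) (w : Module.End k (V i)) : 0 ≤ nrk k V i w :=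
  div_nonneg (Nat.cast_nonneg _) (Nat.cast_nonneg _)

theorem nrk_le (i : ℕ) (w w' : Module.End k (V i))
    (h : Module.finrank k (LinearMap.range w) ≤ Module.finrank k (LinearMap.range w')) :
    nrk k V i w ≤ nrk k V i w' :=
  div_le_div_of_nonneg_right (Nat.cast_le.2 h) (Nat.cast_nonneg _)

theorem nrk_zero (i : ℕ) : nrk k V i 0 = 0 := by
  unfold nrk
  have h : LinearMap.range (0 : Module.End k (V i)) = ⊥ := LinearMap.range_zero
  rw [h, finrank_bot, Nat.cast_zero, zero_div]

variable [∀ i, Module.Finite k (V i)]

theorem nrk_add (i : ℕ) (w w' : Module.End k (V i)) :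
    nrk k V i (w + w') ≤ nrk k V i w + nrk k V i w' := by
  unfold nrk
  rw [← add_div]
  refine div_le_div_of_nonneg_right ?_ (Nat.cast_nonneg _)
  rw [← Nat.cast_add]
  refine Nat.cast_le.2 ?_
  have h1 : LinearMap.range (w + w') ≤ LinearMap.range w ⊔ LinearMap.range w' := by
    rintro _ ⟨x, rfl⟩
    exact Submodule.add_mem_sup ⟨x, rfl⟩ ⟨x, rfl⟩
  exact (Submodule.finrank_mono h1).trans (Submodule.finrank_add_le_finrank_add_finrank _ _)

theorem nrk_mul_left (i : ℕ) (a w : Module.End k (V i)) : nrk k V i (a * w) ≤ nrk k V i w := by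
  apply nrk_le
  have h1 : LinearMap.range (a * w) = (LinearMap.range w).map a := LinearMap.range_comp w a
  rw [h1]
  exact Submodule.finrank_map_le _ _

theorem nrk_mul_right (i : ℕ) (w b : Module.End k (V i)) : nrk k V i (w * b) ≤ nrk k V i w := by
  apply nrk_le
  exact Submodule.finrank_mono (LinearMap.range_comp_le_range b w)

/-- The ideal of the sequences of endomorphisms whose normalised ranks tend to zero. -/
def JI : Ideal (∀ i, Module.End k (V i)) where
  carrier := {w | Tendsto (fun i => nrk k V i (w i)) atTop (nhds 0)}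
  zero_mem' := by
    change Tendsto (fun i => nrk k V i 0) atTop (nhds 0)
    simp only [nrk_zero]
    exact tendsto_const_nhds
  add_mem' := by
    intro a b ha hb
    change Tendsto (fun i => nrk k V i (a i + b i)) atTop (nhds 0)
    have h1 := Tendsto.add ha hb
    rw [add_zero] at h1
    exact squeeze_zero (fun i => nrk_nonneg k V i _) (fun i => nrk_add k V i _ _) h1
  smul_mem' := by
    intro c w hw
    change Tendsto (fun i => nrk k V i (c i * w i)) atTop (nhds 0)
    exact squeeze_zero (fun i => nrk_nonneg k V i _) (fun i => nrk_mul_left k V i _ _) hw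

theorem mem_JI (w : ∀ i, Module.End k (V i)) :
    w ∈ JI k V ↔ Tendsto (fun i => nrk k V i (w i)) atTop (nhds 0) := Iff.rfl

instance JI_twoSided : (JI k V).IsTwoSided where
  mul_mem_of_left := by
    intro w b hw
    change Tendsto (fun i => nrk k V i (w i * b i)) atTop (nhds 0)
    exact squeeze_zero (fun i => nrk_nonneg k V i _) (fun i => nrk_mul_right k V i _ _) hw

/-- The coefficient ring: sequences of endomorphisms modulo normalised rank zero. -/
abbrev DR : Type := (∀ i, Module.End k (V i)) ⧸ JI k V

end

end Pool.Agent.PDR
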