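import Mathlib

set_option autoImplicit false

/-!
# PDR: residually finite p-groups and the classes `HierR` and `HierL`
-/

namespace Pool.Agent.PDR

/-- `K` is residually a finite `p`-group: every nontrivial element is outside some normal
subgroup `N` of finite index such that `K / N` is a `p`-group. -/
def ResP (p : ℕ) (K : Type) [Group K] : Prop :=
  ∀ g : K, g ≠ 1 → ∃ N : Subgroup K, N.Normal ∧ N.FiniteIndex ∧
    (∀ h : K, ∃ e : ℕ, h ^ (p ^ e) ∈ N) ∧ g ∉ N

/-- `K` has a subgroup of finite index which is residually a finite `p`-group for some prime `p`. -/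
def VirtRes (K : Type) [Group K] : Prop :=
  ∃ p : ℕ, p.Prime ∧ ∃ K₀ : Subgroup K, K₀.FiniteIndex ∧ ResP p K₀

/-- Every finitely generated subgroup of `L` satisfies `VirtRes`. -/
def LocRes {Γ : Type} [Group Γ] (L : Subgroup Γ) : Prop :=
  ∀ K : Subgroup Γ, K ≤ L → K.FG → VirtRes K

/-- The smallest class of subgroups of `Γ` which contains every `L` all of whose finitely generated
subgroups are finitely presented, every `L` all of whose finitely generated subgroups are in the
class, every `L` with a subgroup of finite index in the class, and every `L` with `LocRes L` which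
acts without inversions on a tree with all vertex stabilisers in the class. -/
inductive HierR {Γ : Type} [Group Γ] : Subgroup Γ → Prop
  | base (L : Subgroup Γ)
      (h : ∀ K : Subgroup Γ, K ≤ L → K.FG → Group.IsFinitelyPresented K) : HierR L
  | loc (L : Subgroup Γ) (h : ∀ K : Subgroup Γ, K ≤ L → K.FG → HierR K) : HierR L
  | fin (L L₀ : Subgroup Γ) (hle : L₀ ≤ L) (hi : L₀.relIndex L ≠ 0) (h : HierR L₀) : HierR L
  | tree (L : Subgroup Γ) (hL : LocRes L) (V : Type) (T : SimpleGraph V) (_ : MulAction L V)
      (hT : T.IsTree) (hadj : ∀ (g : L) (v w : V), T.Adj v w → T.Adj (g • v) (g • w))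
      (hinv : ∀ (g : L) (v w : V), T.Adj v w → g • v = w → g • w ≠ v)
      (h : ∀ v : V, HierR ((MulAction.stabilizer L v).map L.subtype)) : HierR L

/-- The smallest class of subgroups of `Γ` which contains every `L` all of whose finitely generated
subgroups are finitely presented, every `L` all of whose finitely generated subgroups are in the
class, every `L` with a subgroup of finite index in the class, and every `L` which acts without
inversions on a tree with all vertex stabilisers in the class. -/
inductive HierL {Γ : Type} [Group Γ] : Subgroup Γ → Prop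
  | base (L : Subgroup Γ)
      (h : ∀ K : Subgroup Γ, K ≤ L → K.FG → Group.IsFinitelyPresented K) : HierL L
  | loc (L : Subgroup Γ) (h : ∀ K : Subgroup Γ, K ≤ L → K.FG → HierL K) : HierL L
  | fin (L L₀ : Subgroup Γ) (hle : L₀ ≤ L) (hi : L₀.relIndex L ≠ 0) (h : HierL L₀) : HierL L
  | tree (L : Subgroup Γ) (V : Type) (T : SimpleGraph V) (_ : MulAction L V)
      (hT : T.IsTree) (hadj : ∀ (g : L) (v w : V), T.Adj v w → T.Adj (g • v) (g • w))
      (hinv : ∀ (g : L) (v w : V), T.Adj v w → g • v = w → g • w ≠ v)
      (h : ∀ v : V, HierL ((MulAction.stabilizer L v).map L.subtype)) : HierL L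

end Pool.Agent.PDR
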