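import Mathlib
import Pool.Agent.PDC.Basic
import Pool.Agent.PDR.Stmt
import Pool.Agent.PDR.RkJ
import Pool.Agent.PDR.LemE

set_option autoImplicit false

/-!
# PDR: definitions (chains, the coefficient ring of a chain)
-/

namespace Pool.Agent.PDR

open MonoidAlgebra Pool.Agent.PDC

/-- A descending chain of normal subgroups of `p`-power index with trivial intersection. -/
structure PChain (p : ℕ) (K : Type) [Group K] where
  N : ℕ → Subgroup K
  normal : ∀ i, (N i).Normal
  fin : ∀ i, (N i).FiniteIndex
  anti : ∀ i, N (i + 1) ≤ N i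
  pow : ∀ (i : ℕ) (h : K), ∃ e : ℕ, h ^ (p ^ e) ∈ N i
  sep : ∀ g : K, g ≠ 1 → ∃ i, g ∉ N i

attribute [instance] PChain.normal PChain.fin

section
variable {p : ℕ} [Fact p.Prime] {K : Type} [Group K]

/-- The group algebra over the field with `p` elements of the finite quotients of a chain. -/
abbrev PChain.V (C : PChain p K) (i : ℕ) : Type := MonoidAlgebra (ZMod p) (K ⧸ C.N i)

/-- Reduction modulo `p` and modulo a normal subgroup. -/
noncomputable def redM (p : ℕ) {K : Type} [Group K] (N : Subgroup K) [N.Normal] :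
    MonoidAlgebra ℤ K →+* MonoidAlgebra (ZMod p) (K ⧸ N) :=
  (MonoidAlgebra.mapRingHom (K ⧸ N) (Int.castRingHom (ZMod p))).comp
    (MonoidAlgebra.mapDomainRingHom ℤ (QuotientGroup.mk' N))

/-- The group ring acts on the group algebras of the finite quotients by left multiplication. -/
noncomputable def PChain.f (C : PChain p K) (i : ℕ) :
    MonoidAlgebra ℤ K →+* Module.End (ZMod p) (C.V i) :=
  (Algebra.lmul (ZMod p) (MonoidAlgebra (ZMod p) (K ⧸ C.N i))).toRingHom.comp (redM p (C.N i))

theorem PChain.f_apply (C : PChain p K) (i : ℕ) (a : MonoidAlgebra ℤ K) (v : C.V i) :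
    C.f i a v = redM p (C.N i) a * v := rfl

instance (C : PChain p K) (i : ℕ) : Module.Finite (ZMod p) (C.V i) := by
  have : Finite (K ⧸ C.N i) := Subgroup.finite_quotient_of_finiteIndex
  infer_instance

/-- The homomorphism of the group ring to the coefficient ring of a chain. -/
noncomputable def PChain.fD (C : PChain p K) : MonoidAlgebra ℤ K →+* DR (ZMod p) C.V :=
  (Ideal.Quotient.mk (JI (ZMod p) C.V)).comp (RingHom.pi C.f)

end

end Pool.Agent.PDR
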