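import Mathlib
import Pool.Agent.PDR.RDefs

set_option autoImplicit false

/-!
# PDR-Chain: a finitely generated residually finite `p`-group has a chain

PLAN.  K is countable (finitely generated: quotient of a free group on finitely many generators, or
`Subgroup.closure` of a finite set is countable).  Let e : ℕ → K be surjective
(`exists_surjective_nat`).  For g : K choose a subgroup M g which is normal, of finite index, with
`∀ h, ∃ e, h ^ (p ^ e) ∈ M g`, and g ∉ M g if g ≠ 1 (for g = 1 take M g = ⊤).
N 0 := M (e 0), N (i+1) := N i ⊓ M (e (i+1)) (define by `Nat.rec`).  Normal, finite index, anti: clear.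
pow: if h ^ (p^a) ∈ N i and h ^ (p^b) ∈ M then h ^ (p^(a+b)) is in both
(h ^ (p^(a+b)) = (h ^ (p^a)) ^ (p^b), `pow_add`, `pow_mul`).
sep: g = e i, N i ≤ M (e i).
-/

namespace Pool.Agent.PDR

/-- the chain of a sequence of subgroups -/
private def chn {K : Type} [Group K] (M : ℕ → Subgroup K) : ℕ → Subgroup K
  | 0 => M 0
  | i + 1 => chn M i ⊓ M (i + 1)

private theorem chn_le {K : Type} [Group K] (M : ℕ → Subgroup K) (i : ℕ) : chn M i ≤ M i := by
  cases i with
  | zero => exact le_rfl
  | succ i => exact inf_le_right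

theorem pchain_exists (p : ℕ) (K : Type) [Group K] [Group.FG K] (h : ResP p K) :
    Nonempty (PChain p K) := by
  have hc : Countable K := by
    obtain ⟨α, hα, φ, hφ⟩ := Group.fg_iff_exists_freeGroup_hom_surjective_finite.1
      (inferInstance : Group.FG K)
    exact hφ.countable
  obtain ⟨e, he⟩ := exists_surjective_nat K
  have hM : ∀ g : K, ∃ N : Subgroup K, N.Normal ∧ N.FiniteIndex ∧
      (∀ h : K, ∃ e : ℕ, h ^ (p ^ e) ∈ N) ∧ (g ≠ 1 → g ∉ N) := by
    intro g
    by_cases hg : g = 1
    · refine ⟨⊤, inferInstance, inferInstance, fun h => ⟨0, Subgroup.mem_top _⟩, fun h => absurd hg h⟩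
    · obtain ⟨N, h1, h2, h3, h4⟩ := h g hg
      exact ⟨N, h1, h2, h3, fun _ => h4⟩
  choose M hM1 hM2 hM3 hM4 using hM
  refine ⟨{ N := chn fun i => M (e i), normal := ?_, fin := ?_, anti := ?_, pow := ?_, sep := ?_ }⟩
  · intro i
    induction i with
    | zero => exact hM1 (e 0)
    | succ i ih =>
      have h1 := hM1 (e (i + 1))
      exact @Subgroup.normal_inf_normal _ _ _ _ ih h1
  · intro i
    induction i with
    | zero => exact hM2 (e 0)
    | succ i ih =>
      have h1 := hM2 (e (i + 1))
      show (chn (fun i => M (e i)) i ⊓ M (e (i + 1))).FiniteIndex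
      infer_instance
  · intro i
    exact inf_le_left
  · intro i
    induction i with
    | zero => exact hM3 (e 0)
    | succ i ih =>
      intro x
      obtain ⟨a, ha⟩ := ih x
      obtain ⟨b, hb⟩ := hM3 (e (i + 1)) x
      refine ⟨a + b, ?_⟩
      refine Subgroup.mem_inf.2 ⟨?_, ?_⟩
      · rw [pow_add, pow_mul]
        exact Subgroup.pow_mem _ ha _
      · rw [pow_add, mul_comm, pow_mul]
        exact Subgroup.pow_mem _ hb _
  · intro g hg
    obtain ⟨i, rfl⟩ := he g
    exact ⟨i, fun h1 => hM4 (e i) hg (chn_le (fun i => M (e i)) i h1)⟩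

end Pool.Agent.PDR
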