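import Mathlib

set_option autoImplicit false

/-!
# PDR-Coord: maximal invertible minors (Mathlib only)

Take a maximal invertible minor.  Bordering it with a row `y` and a column `c'` gives a singular matrix (a vector in the
left kernel is computed directly), so every row is a combination of the rows of the minor.
-/

namespace Pool.Agent.PDR

private theorem coord_border {k : Type} [Field k] {C X : Type} (φ : X → (C → k)) {m : ℕ}
    (x : Fin m → X) (c : Fin m → C) (hA : IsUnit (Matrix.of fun a l => φ (x a) (c l)).det) (y : X)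
    (hmax : ∀ (x' : Fin (m + 1) → X) (c' : Fin (m + 1) → C),
      ¬ IsUnit (Matrix.of fun a l => φ (x' a) (c' l)).det) :
    ∃ α : Fin m → k, ∀ c, φ y c = ∑ a, α a * φ (x a) c := by
  set A : Matrix (Fin m) (Fin m) k := Matrix.of fun a l => φ (x a) (c l) with hAdef
  refine ⟨Matrix.vecMul (fun l => φ y (c l)) A⁻¹, fun c' => ?_⟩
  set α := Matrix.vecMul (fun l => φ y (c l)) A⁻¹ with hα
  have hαA : Matrix.vecMul α A = fun l => φ y (c l) := by
    rw [hα, Matrix.vecMul_vecMul, Matrix.nonsing_inv_mul _ hA, Matrix.vecMul_one]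
  have hαl : ∀ l, ∑ a, α a * φ (x a) (c l) = φ y (c l) := fun l => congrFun hαA l
  by_contra hne
  apply hmax (Fin.snoc x y) (Fin.snoc c c')
  rw [isUnit_iff_ne_zero]
  intro hdet
  obtain ⟨w, hw0, hw⟩ := Matrix.exists_vecMul_eq_zero_iff.2 hdet
  have hcol : ∀ l : Fin (m + 1), ∑ a : Fin m, w a.castSucc * φ (x a) ((Fin.snoc c c' : Fin (m + 1) → C) l) +
      w (Fin.last m) * φ y ((Fin.snoc c c' : Fin (m + 1) → C) l) = 0 := by
    intro l
    have h1 := congrFun hw l
    have h2 : ∑ a : Fin (m + 1), w a * φ ((Fin.snoc x y : Fin (m + 1) → X) a)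
        ((Fin.snoc c c' : Fin (m + 1) → C) l) = 0 := h1
    rw [Fin.sum_univ_castSucc] at h2
    simpa only [Fin.snoc_castSucc, Fin.snoc_last] using h2
  -- the first columns
  have h3 : Matrix.vecMul (fun a => w a.castSucc + w (Fin.last m) * α a) A = 0 := by
    funext l
    have h4 := hcol l.castSucc
    rw [Fin.snoc_castSucc, ← hαl l, Finset.mul_sum, ← Finset.sum_add_distrib] at h4
    show ∑ a, (w a.castSucc + w (Fin.last m) * α a) * φ (x a) (c l) = 0
    rw [← h4]
    exact Finset.sum_congr rfl fun a _ => by ring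
  have h5 : (fun a => w a.castSucc + w (Fin.last m) * α a) = 0 := by
    by_contra h6
    exact hA.ne_zero (Matrix.exists_vecMul_eq_zero_iff.1 ⟨_, h6, h3⟩)
  have h6 : ∀ a : Fin m, w a.castSucc = -(w (Fin.last m) * α a) := fun a =>
    eq_neg_of_add_eq_zero_left (congrFun h5 a)
  -- the last column
  have h7 := hcol (Fin.last m)
  rw [Fin.snoc_last] at h7
  have h8 : w (Fin.last m) * (φ y c' - ∑ a, α a * φ (x a) c') = 0 := by
    rw [mul_sub, Finset.mul_sum, sub_eq_zero, eq_comm, ← sub_eq_zero, ← neg_eq_zero, neg_sub,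
      ← h7, add_comm, sub_eq_add_neg, ← Finset.sum_neg_distrib]
    congr 1
    exact Finset.sum_congr rfl fun a _ => by rw [h6 a]; ring
  have h9 : w (Fin.last m) = 0 := by
    rcases mul_eq_zero.1 h8 with h | h
    · exact h
    · exact absurd (sub_eq_zero.1 h) hne
  apply hw0
  funext a
  refine Fin.lastCases ?_ (fun a => ?_) a
  · exact h9
  · rw [h6 a, h9, zero_mul, neg_zero]
    rfl

theorem coord_max {k : Type} [Field k] {C X : Type} (φ : X → (C → k)) (B : ℕ)
    (h : ∀ (m : ℕ) (x : Fin m → X) (c : Fin m → C),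
      IsUnit (Matrix.of fun a l => φ (x a) (c l)).det → m ≤ B) :
    ∃ (m : ℕ) (x : Fin m → X), ∀ y : X, ∃ α : Fin m → k, ∀ c, φ y c = ∑ a, α a * φ (x a) c := by
  classical
  have h0 : ∃ (x : Fin 0 → X) (c : Fin 0 → C), IsUnit (Matrix.of fun a l => φ (x a) (c l)).det :=
    ⟨Fin.elim0, Fin.elim0, by rw [Matrix.det_isEmpty]; exact isUnit_one⟩
  set P : ℕ → Prop := fun m => ∃ (x : Fin m → X) (c : Fin m → C),
    IsUnit (Matrix.of fun a l => φ (x a) (c l)).det with hP
  have h1 : P (Nat.findGreatest P B) := Nat.findGreatest_spec (P := P) (Nat.zero_le B) h0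
  obtain ⟨x, c, hA⟩ := h1
  refine ⟨Nat.findGreatest P B, x, fun y => coord_border φ x c hA y fun x' c' hu => ?_⟩
  have h2 := h _ x' c' hu
  exact Nat.findGreatest_is_greatest (P := P) (Nat.lt_succ_self _) h2 ⟨x', c', hu⟩

end Pool.Agent.PDR
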