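import Mathlib
import Pool.Agent.PDC.Basic

set_option autoImplicit false

/-!
# PDR-Zeta: basic properties of `zeta`, version with `f` defined on the group ring of `H` only
-/

namespace Pool.Agent.PDR

open MonoidAlgebra Pool.Agent.PDC

section
variable {G : Type} [Group G] (H : Subgroup G) {D : Type} [Ring D]
  (f : MonoidAlgebra ℤ H →+* D) {M : Type} [AddCommGroup M] [Module (MonoidAlgebra ℤ G) M]
  {I : Type} [Fintype I] (d : I → D) (q : I → M)

/-- The function `g ↦ ∑ a, d_a f(res_H(μ(q_a) g⁻¹))`, i.e. the image of `∑ d_a ⊗ q_a` under `1 ⊗ μ`,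
seen as a function `G → D`. -/
noncomputable def zeta (μ : M →ₗ[MonoidAlgebra ℤ G] MonoidAlgebra ℤ G) (g : G) : D :=
  ∑ a, d a * f (resH H (μ (q a) * of ℤ G g⁻¹))

theorem zeta_left (μ : M →ₗ[MonoidAlgebra ℤ G] MonoidAlgebra ℤ G) (h : H) (g : G) :
    zeta H f d q μ ((h : G) * g) = zeta H f d q μ g * f (of ℤ H h⁻¹) := by
  have e : of ℤ G ((h : G) * g)⁻¹ = of ℤ G g⁻¹ * inc H (of ℤ H h⁻¹) := by
    rw [inc_of, ← map_mul, mul_inv_rev, Subgroup.coe_inv]
  unfold zeta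
  rw [e, Finset.sum_mul]
  refine Finset.sum_congr rfl fun a _ => ?_
  rw [← mul_assoc, resH_mul_inc, map_mul f, mul_assoc]

theorem zeta_add (μ ν : M →ₗ[MonoidAlgebra ℤ G] MonoidAlgebra ℤ G) (g : G) :
    zeta H f d q (μ + ν) g = zeta H f d q μ g + zeta H f d q ν g := by
  unfold zeta
  rw [← Finset.sum_add_distrib]
  refine Finset.sum_congr rfl fun a _ => ?_
  rw [LinearMap.add_apply, add_mul, map_add, map_add, mul_add]

theorem zeta_zsmul (n : ℤ) (μ : M →ₗ[MonoidAlgebra ℤ G] MonoidAlgebra ℤ G) (g : G) :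
    zeta H f d q (n • μ) g = n • zeta H f d q μ g := by
  unfold zeta
  rw [Finset.smul_sum]
  refine Finset.sum_congr rfl fun a _ => ?_
  rw [LinearMap.smul_apply, smul_mul_assoc, map_zsmul, map_zsmul, mul_smul_comm]

theorem zeta_sub (μ ν : M →ₗ[MonoidAlgebra ℤ G] MonoidAlgebra ℤ G) (g : G) :
    zeta H f d q (μ - ν) g = zeta H f d q μ g - zeta H f d q ν g := by
  unfold zeta
  rw [← Finset.sum_sub_distrib]
  refine Finset.sum_congr rfl fun a _ => ?_
  rw [LinearMap.sub_apply, sub_mul, map_sub, map_sub, mul_sub]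

theorem zeta_rmul_of (μ : M →ₗ[MonoidAlgebra ℤ G] MonoidAlgebra ℤ G) (k g : G) :
    zeta H f d q (rmul μ (of ℤ G k)) g = zeta H f d q μ (g * k⁻¹) := by
  unfold zeta
  refine Finset.sum_congr rfl fun a _ => ?_
  have e : k * g⁻¹ = (g * k⁻¹)⁻¹ := by group
  rw [rmul_apply, mul_assoc, ← map_mul, e]

theorem zeta_fin (μ : M →ₗ[MonoidAlgebra ℤ G] MonoidAlgebra ℤ G) :
    FinCos H {g : G | zeta H f d q μ g ≠ 0} := by
  classical
  refine ⟨Finset.univ.biUnion fun a => (μ (q a)).coeff.support, ?_⟩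
  intro g hg
  obtain ⟨a, -, ha⟩ := Finset.exists_ne_zero_of_sum_ne_zero hg
  have h1 : resH H (μ (q a) * of ℤ G g⁻¹) ≠ 0 := by
    intro h0
    apply ha
    rw [h0, map_zero, mul_zero]
  have h2 : ∃ h : H, (resH H (μ (q a) * of ℤ G g⁻¹)).coeff h ≠ 0 := by
    by_contra hcon
    push Not at hcon
    apply h1
    ext h
    simpa using hcon h
  obtain ⟨h, hh⟩ := h2
  rw [coeff_resH, of_apply, coeff_mul_single_apply, mul_one, inv_inv] at hh
  refine ⟨h * g, ?_, ?_⟩
  · rw [Finset.mem_biUnion]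
    exact ⟨a, Finset.mem_univ _, Finsupp.mem_support_iff.2 hh⟩
  · have : g * ((h : G) * g)⁻¹ = (h : G)⁻¹ := by group
    rw [this]
    exact H.inv_mem h.2

end

end Pool.Agent.PDR
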