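import Mathlib
import Pool.Agent.PDC.FinG

set_option autoImplicit false

/-!
# PDR-ExpM: a relation all of whose coordinates have augmentation divisible by p lies in (p, I) P

Expansion of the lift along the finitely many coset representatives of the supports; every term is
a multiple of an element of the kernel by an element of augmentation divisible by p.
-/

namespace Pool.Agent.PDR

open MonoidAlgebra Pool.Agent.PDC

theorem exp_mP {G : Type} [Group G] (X : PD3 G) (H : Subgroup G) {n : ℕ} (x : Fin n → H)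
    (y : Fin n → X.P1) (g1 : X.P1 →+ (Fin n → MonoidAlgebra ℤ H))
    (σ : Fin n → (Fin n → MonoidAlgebra ℤ H))
    (hg1 : ∀ (a : MonoidAlgebra ℤ H) (q : X.P1), g1 (inc H a • q) = a • g1 q)
    (hg1' : ∀ z : X.P1, X.d1 z = 0 → bd x (g1 z) = 0)
    (hσ : ∀ j, bd x (σ j) = 0)
    (hp : ∀ p : Fin n → MonoidAlgebra ℤ H, bd x p = 0 →
        p = g1 (∑ j, inc H (p j) • y j) - ∑ j, p j • σ j)
    {m : ℕ} (e : Fin m → X.P2) (μ : Fin m → (X.P2 →ₗ[MonoidAlgebra ℤ G] MonoidAlgebra ℤ G))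
    (hμ : ∀ q : X.P2, q = ∑ k, μ k q • e k) (p : ℕ) (z : ↥(LinearMap.ker (bd x))) (q : X.P2)
    (hq : X.d2 q = ∑ j, inc H (z.1 j) • y j)
    (h1 : ∀ k g, (p : ℤ) ∣ aug (resH H (μ k q * of ℤ G g⁻¹)))
    (h2 : ∀ j, (p : ℤ) ∣ aug (z.1 j)) :
    z ∈ AddSubgroup.closure {w : ↥(LinearMap.ker (bd x)) |
      ∃ (a : MonoidAlgebra ℤ H) (u : ↥(LinearMap.ker (bd x))), (p : ℤ) ∣ aug a ∧ w = a • u} := by
  classical
  have hz : ∀ q : X.P2, bd x (g1 (X.d2 q)) = 0 := fun q =>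
    hg1' _ (X.ex1.apply_apply_eq_zero q)
  let Λ : Fin m → (MonoidAlgebra ℤ G →+ (Fin n → MonoidAlgebra ℤ H)) := fun k =>
    AddMonoidHom.mk' (fun r => g1 (X.d2 (r • e k))) (fun a b => by
      rw [add_smul, map_add, map_add])
  have hΛ : ∀ k r, Λ k r = g1 (X.d2 (r • e k)) := fun _ _ => rfl
  let Y : Finset G := Finset.univ.biUnion fun k : Fin m => (μ k q).coeff.support.image (tr H)
  have hY : ∀ t ∈ Y, tr H t = t := by
    intro t ht
    obtain ⟨k, -, hk⟩ := Finset.mem_biUnion.1 ht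
    obtain ⟨g, -, rfl⟩ := Finset.mem_image.1 hk
    exact tr_tr H g
  have hsupp : ∀ k g, (μ k q).coeff g ≠ 0 → tr H g ∈ Y := by
    intro k g hg
    exact Finset.mem_biUnion.2 ⟨k, Finset.mem_univ k,
      Finset.mem_image.2 ⟨g, Finsupp.mem_support_iff.2 hg, rfl⟩⟩
  have hzk : bd x z.1 = 0 := LinearMap.mem_ker.1 z.2
  have e1 := hp z.1 hzk
  rw [← hq] at e1
  have e2 : g1 (X.d2 q) = ∑ k, Λ k (μ k q) := by
    conv_lhs => rw [hμ q]
    rw [map_sum, map_sum]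
    rfl
  have e3 : ∀ k, Λ k (μ k q) =
      ∑ t ∈ Y, resH H (μ k q * of ℤ G t⁻¹) • Λ k (of ℤ G t) := fun k =>
    expand H (Λ k) (fun a r => by rw [hΛ, hΛ, mul_smul, map_smul, hg1]) (μ k q) Y hY (hsupp k)
  let U : Fin m → G → ↥(LinearMap.ker (bd x)) := fun k t =>
    ⟨Λ k (of ℤ G t), LinearMap.mem_ker.2 (hz _)⟩
  let S : Fin n → ↥(LinearMap.ker (bd x)) := fun j => ⟨σ j, LinearMap.mem_ker.2 (hσ j)⟩
  have e4 : z = ∑ k, ∑ t ∈ Y, resH H (μ k q * of ℤ G t⁻¹) • U k t - ∑ j, z.1 j • S j := by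
    apply Subtype.ext
    rw [Submodule.coe_sub, Submodule.coe_sum, Submodule.coe_sum]
    rw [e2] at e1
    refine e1.trans ?_
    congr 1
    refine Finset.sum_congr rfl fun k _ => ?_
    rw [e3 k, Submodule.coe_sum]
    rfl
  rw [e4]
  refine sub_mem (sum_mem fun k _ => sum_mem fun t _ => ?_) (sum_mem fun j _ => ?_)
  · exact AddSubgroup.subset_closure ⟨_, U k t, h1 k t, rfl⟩
  · exact AddSubgroup.subset_closure ⟨z.1 j, S j, h2 j, rfl⟩

end Pool.Agent.PDR
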