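import Mathlib
import Pool.Agent.PDC.DualB
import Pool.Agent.PDR.Zeta

set_option autoImplicit false

/-!
# PDR-Sep: if all `zeta μ` vanish then `∑ d_a Λ(q_a) = 0` for every H-linear Λ : M → D
(version with `f` on the group ring of `H`)
-/

namespace Pool.Agent.PDR

open MonoidAlgebra Pool.Agent.PDC

theorem sep {G : Type} [Group G] (H : Subgroup G) {D : Type} [Ring D]
    (f : MonoidAlgebra ℤ H →+* D) {M : Type} [AddCommGroup M] [Module (MonoidAlgebra ℤ G) M]
    [Module.Finite (MonoidAlgebra ℤ G) M] [Module.Projective (MonoidAlgebra ℤ G) M]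
    {I : Type} [Fintype I] (d : I → D) (q : I → M)
    (hz : ∀ (μ : M →ₗ[MonoidAlgebra ℤ G] MonoidAlgebra ℤ G) (g : G), zeta H f d q μ g = 0)
    (Λ : M →+ D) (hΛ : ∀ (a : MonoidAlgebra ℤ H) (m : M), Λ (inc H a • m) = f a * Λ m) :
    ∑ a, d a * Λ (q a) = 0 := by
  classical
  obtain ⟨m, e, μ, he⟩ := dual_basis (MonoidAlgebra ℤ G) M
  letI : Module (MonoidAlgebra ℤ H) D := Module.compHom D f
  have hsm : ∀ (a : MonoidAlgebra ℤ H) (x : D), a • x = f a * x := fun _ _ => rfl
  set L : Fin m → (MonoidAlgebra ℤ G →+ D) := fun k =>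
    AddMonoidHom.mk' (fun r => Λ (r • e k)) (fun r r' => by rw [add_smul, map_add]) with hL
  have hLk : ∀ k r, L k r = Λ (r • e k) := fun _ _ => rfl
  have hLs : ∀ (k : Fin m) (a : MonoidAlgebra ℤ H) r, L k (inc H a * r) = a • L k r := by
    intro k a r
    rw [hLk, hLk, hsm, mul_smul, hΛ]
  set Y : Finset G := Finset.univ.biUnion fun a : I => Finset.univ.biUnion fun k : Fin m =>
    (μ k (q a)).coeff.support.image (tr H) with hYd
  have hY : ∀ y ∈ Y, tr H y = y := by
    intro y hy
    simp only [hYd, Finset.mem_biUnion, Finset.mem_univ, true_and, Finset.mem_image] at hy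
    obtain ⟨a, k, g, _, rfl⟩ := hy
    exact tr_tr H g
  have key : ∀ a k, L k (μ k (q a)) =
      ∑ y ∈ Y, f (resH H (μ k (q a) * of ℤ G y⁻¹)) * L k (of ℤ G y) := by
    intro a k
    have := expand H (L k) (hLs k) (μ k (q a)) Y hY (by
      intro g hg
      simp only [hYd, Finset.mem_biUnion, Finset.mem_univ, true_and, Finset.mem_image]
      exact ⟨a, k, g, Finsupp.mem_support_iff.2 hg, rfl⟩)
    rw [this]
    rfl
  have h1 : ∀ a, Λ (q a) = ∑ k, L k (μ k (q a)) := by
    intro a
    conv_lhs => rw [he (q a)]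
    rw [map_sum]
    exact Finset.sum_congr rfl fun k _ => (hLk k _).symm
  calc ∑ a, d a * Λ (q a)
      = ∑ a, ∑ k, ∑ y ∈ Y, d a * f (resH H (μ k (q a) * of ℤ G y⁻¹)) *
          L k (of ℤ G y) := by
        refine Finset.sum_congr rfl fun a _ => ?_
        rw [h1 a, Finset.mul_sum]
        refine Finset.sum_congr rfl fun k _ => ?_
        rw [key a k, Finset.mul_sum]
        refine Finset.sum_congr rfl fun y _ => ?_
        rw [mul_assoc]
    _ = ∑ k, ∑ y ∈ Y, ∑ a, d a * f (resH H (μ k (q a) * of ℤ G y⁻¹)) *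
          L k (of ℤ G y) := by
        rw [Finset.sum_comm]
        refine Finset.sum_congr rfl fun k _ => ?_
        rw [Finset.sum_comm]
    _ = ∑ k, ∑ y ∈ Y, zeta H f d q (μ k) y * L k (of ℤ G y) := by
        refine Finset.sum_congr rfl fun k _ => Finset.sum_congr rfl fun y _ => ?_
        rw [zeta, Finset.sum_mul]
    _ = 0 := by
        refine Finset.sum_eq_zero fun k _ => Finset.sum_eq_zero fun y _ => ?_
        rw [hz, zero_mul]

end Pool.Agent.PDR
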