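import Mathlib

set_option autoImplicit false

/-!
# PDR-Lin1: finitely generated subrings of fields have maximal ideals with finite residue fields (Mathlib only)

PLAN.  A := (Algebra.adjoin ℤ (S : Set K)) as a subring (or Subring.closure S; the two agree:
`Subring.closure`/`Algebra.adjoin_int`).  A is a finite type ℤ-algebra (`Subalgebra.fg_adjoin_finset`,
`Subalgebra.fg_iff_finiteType`), so Noetherian (`Algebra.FiniteType.isNoetherianRing ℤ A`).  I from
`Ideal.exists_maximal A`.  L := A ⧸ I is a field, of finite type over ℤ, so module-finite over ℤ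
(`finite_of_finite_type_of_isJacobsonRing ℤ L`).  L is finite: if char L = 0 then ℤ → L is injective and integral, so ℤ
would be a field (`isField_of_isIntegral_of_isField`), false; so (q : L) = 0 for some q > 0, L is a finitely generated
module over ZMod q (or: a finitely generated torsion abelian group, `Module.finite_of_fg_torsion`).
-/

namespace Pool.Agent.PDR

private theorem jac_int : IsJacobsonRing ℤ := by
  rw [isJacobsonRing_iff_prime_eq]
  intro P hP
  by_cases h : P = ⊥
  · subst h
    rw [eq_bot_iff]
    intro x hx
    rw [Ideal.mem_jacobson_bot] at hx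
    have h1 := Int.isUnit_iff.1 (hx x)
    have h2 : x = 0 := by
      rcases h1 with h1 | h1
      · have h3 : x * x = 0 := by linarith
        exact mul_self_eq_zero.1 h3
      · have h3 := mul_self_nonneg x
        exfalso
        linarith
    rw [h2]
    exact Ideal.zero_mem _
  · have := hP.isMaximal h
    exact Ideal.jacobson_eq_self_of_isMaximal

theorem exists_subring (K : Type) [Field K] (S : Finset K) :
    ∃ A : Subring K, (∀ s ∈ S, s ∈ A) ∧ IsNoetherianRing A ∧
      ∃ I : Ideal A, I.IsMaximal ∧ Finite (A ⧸ I) := by
  set B : Subalgebra ℤ K := Algebra.adjoin ℤ (S : Set K) with hB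
  have hft : Algebra.FiniteType ℤ B := B.fg_iff_finiteType.1 (Subalgebra.fg_adjoin_finset S)
  have hN : IsNoetherianRing B := Algebra.FiniteType.isNoetherianRing ℤ B
  obtain ⟨I, hI⟩ := Ideal.exists_maximal B
  have hfin : Finite (B ⧸ I) := by
    let : Field (B ⧸ I) := Ideal.Quotient.field I
    have : Algebra.FiniteType ℤ (B ⧸ I) :=
      Algebra.FiniteType.of_surjective (Ideal.Quotient.mkₐ ℤ I) (Ideal.Quotient.mkₐ_surjective ℤ I)
    have := jac_int
    have : Module.Finite ℤ (B ⧸ I) := finite_of_finite_type_of_isJacobsonRing ℤ (B ⧸ I)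
    obtain ⟨q, hq⟩ := CharP.exists (B ⧸ I)
    have hq0 : q ≠ 0 := by
      intro h0
      subst h0
      have : CharZero (B ⧸ I) := CharP.charP_to_charZero (B ⧸ I)
      have hinj : Function.Injective (algebraMap ℤ (B ⧸ I)) := by
        intro a b hab
        rw [eq_intCast, eq_intCast] at hab
        exact Int.cast_injective hab
      have hint : (algebraMap ℤ (B ⧸ I)).IsIntegral := algebraMap_isIntegral_iff.2 inferInstance
      have hF : IsField ℤ :=
        isField_of_isIntegral_of_isField hinj (Field.toIsField (B ⧸ I))
      exact Int.not_isField hF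
    apply Module.finite_of_fg_torsion
    intro x
    refine ⟨⟨(q : ℤ), mem_nonZeroDivisors_of_ne_zero (by exact_mod_cast hq0)⟩, ?_⟩
    show (q : ℤ) • x = 0
    rw [zsmul_eq_mul, Int.cast_natCast, CharP.cast_eq_zero, zero_mul]
  exact ⟨B.toSubring, fun s hs => Algebra.subset_adjoin hs, hN, I, hI, hfin⟩

end Pool.Agent.PDR
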