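import Mathlib
import Pool.Agent.PDR.RDefs

set_option autoImplicit false

/-!
# PDR-Lin2: congruence subgroups are residually finite p-groups

`Ent I k M`: all entries of the matrix `M` are in `I ^ k`.  If `x` has entries in `I ^ j`, `j ≥ 1`, then
`(1 + x) ^ n - 1 - n x` has entries in `I ^ (j + 1)` (`ent_pow`), so `(1 + x) ^ p - 1` too if `p ∈ I`.  The kernels modulo
`I ^ j` are separating (Krull intersection theorem).
-/

namespace Pool.Agent.PDR

private def Ent {A : Type} [CommRing A] (I : Ideal A) {d : ℕ} (k : ℕ) (M : Matrix (Fin d) (Fin d) A) :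
    Prop := ∀ a b, M a b ∈ I ^ k

private theorem ent_mono {A : Type} [CommRing A] {I : Ideal A} {d k l : ℕ} (h : k ≤ l)
    {M : Matrix (Fin d) (Fin d) A} (hM : Ent I l M) : Ent I k M := fun a b =>
  Ideal.pow_le_pow_right h (hM a b)

private theorem ent_zero {A : Type} [CommRing A] (I : Ideal A) {d : ℕ}
    (M : Matrix (Fin d) (Fin d) A) : Ent I 0 M := fun a b => by
  rw [pow_zero, Ideal.one_eq_top]
  exact Submodule.mem_top

private theorem ent_add {A : Type} [CommRing A] {I : Ideal A} {d k : ℕ}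
    {M M' : Matrix (Fin d) (Fin d) A} (hM : Ent I k M) (hM' : Ent I k M') : Ent I k (M + M') :=
  fun a b => Ideal.add_mem _ (hM a b) (hM' a b)

private theorem ent_nsmul {A : Type} [CommRing A] {I : Ideal A} {d k : ℕ} (n : ℕ)
    {M : Matrix (Fin d) (Fin d) A} (hM : Ent I k M) : Ent I k (n • M) :=
  fun a b => nsmul_mem (hM a b) n

private theorem ent_mul {A : Type} [CommRing A] {I : Ideal A} {d k l : ℕ}
    {M M' : Matrix (Fin d) (Fin d) A} (hM : Ent I k M) (hM' : Ent I l M') :
    Ent I (k + l) (M * M') := fun a b => by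
  rw [Matrix.mul_apply, pow_add]
  exact Ideal.sum_mem _ fun c _ => Ideal.mul_mem_mul (hM a c) (hM' c b)

private theorem ent_pow {A : Type} [CommRing A] {I : Ideal A} {d j : ℕ} (hj : 1 ≤ j)
    {x : Matrix (Fin d) (Fin d) A} (hx : Ent I j x) (n : ℕ) :
    Ent I (j + 1) ((1 + x) ^ n - 1 - n • x) := by
  induction n with
  | zero =>
    rw [pow_zero, zero_smul, sub_self, sub_zero]
    exact fun a b => Ideal.zero_mem _
  | succ n ih =>
    have e : (1 + x) ^ (n + 1) - 1 - (n + 1) • x =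
        ((1 + x) ^ n - 1 - n • x) * (1 + x) + n • (x * x) := by
      rw [pow_succ, sub_mul, sub_mul, one_mul, smul_mul_assoc, mul_add x 1 x, mul_one, smul_add,
        add_smul, one_smul]
      abel
    rw [e]
    refine ent_add ?_ (ent_nsmul n (ent_mono (by omega) (ent_mul hx hx)))
    exact ent_mul (k := j + 1) (l := 0) ih (ent_zero I (1 + x))

private theorem ent_p {A : Type} [CommRing A] {I : Ideal A} {d j p : ℕ} (hp : (p : A) ∈ I)
    (hj : 1 ≤ j) {M : Matrix (Fin d) (Fin d) A} (hM : Ent I j (M - 1)) :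
    Ent I (j + 1) (M ^ p - 1) := by
  have h1 := ent_pow hj hM p
  rw [add_sub_cancel] at h1
  have h2 : Ent I (j + 1) (p • (M - 1)) := fun a b => by
    rw [pow_succ', Matrix.smul_apply, nsmul_eq_mul]
    exact Ideal.mul_mem_mul hp (hM a b)
  have e : M ^ p - 1 = (M ^ p - 1 - p • (M - 1)) + p • (M - 1) := (sub_add_cancel _ _).symm
  rw [e]
  exact ent_add h1 h2

private theorem ent_iter {A : Type} [CommRing A] {I : Ideal A} {d p : ℕ} (hp : (p : A) ∈ I)
    {M : Matrix (Fin d) (Fin d) A} (hM : Ent I 1 (M - 1)) (e : ℕ) :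
    Ent I (e + 1) (M ^ p ^ e - 1) := by
  induction e with
  | zero =>
    rw [pow_zero, pow_one]
    exact hM
  | succ e ih =>
    rw [pow_succ, pow_mul]
    exact ent_p hp (by omega) ih

private theorem lin_mem {A : Type} [CommRing A] (I : Ideal A) {d : ℕ} (k : ℕ)
    (g : Matrix.GeneralLinearGroup (Fin d) A) :
    Matrix.GeneralLinearGroup.map (n := Fin d) (Ideal.Quotient.mk (I ^ k)) g = 1 ↔
      Ent I k ((g : Matrix (Fin d) (Fin d) A) - 1) := by
  constructor
  · intro h a b
    have h1 : (Ideal.Quotient.mk (I ^ k)) ((g : Matrix (Fin d) (Fin d) A) a b) =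
        (1 : Matrix (Fin d) (Fin d) (A ⧸ I ^ k)) a b :=
      Matrix.ext_iff.2 (Units.ext_iff.1 h) a b
    have h2 : (1 : Matrix (Fin d) (Fin d) (A ⧸ I ^ k)) a b =
        (Ideal.Quotient.mk (I ^ k)) ((1 : Matrix (Fin d) (Fin d) A) a b) := by
      rw [Matrix.one_apply, Matrix.one_apply]
      split_ifs
      · exact (map_one _).symm
      · exact (map_zero _).symm
    rw [h2] at h1
    exact Ideal.Quotient.eq.1 h1
  · intro h
    refine Units.ext (Matrix.ext fun a b => ?_)
    have h2 : (1 : Matrix (Fin d) (Fin d) (A ⧸ I ^ k)) a b =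
        (Ideal.Quotient.mk (I ^ k)) ((1 : Matrix (Fin d) (Fin d) A) a b) := by
      rw [Matrix.one_apply, Matrix.one_apply]
      split_ifs
      · exact (map_one _).symm
      · exact (map_zero _).symm
    show (Ideal.Quotient.mk (I ^ k)) ((g : Matrix (Fin d) (Fin d) A) a b) =
        (1 : Matrix (Fin d) (Fin d) (A ⧸ I ^ k)) a b
    rw [h2]
    exact Ideal.Quotient.eq.2 (h a b)

theorem cong_resP (A : Type) [CommRing A] [IsDomain A] [IsNoetherianRing A] (I : Ideal A)
    (hI : I.IsMaximal) (hfin : Finite (A ⧸ I)) (d : ℕ) :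
    ∃ p : ℕ, p.Prime ∧ ResP p (MonoidHom.ker
      (Matrix.GeneralLinearGroup.map (n := Fin d) (Ideal.Quotient.mk I))) := by
  have hdom : IsDomain (A ⧸ I) := by
    have := hI.isPrime
    infer_instance
  obtain ⟨p, hp⟩ := CharP.exists (A ⧸ I)
  have hpp : p.Prime := CharP.char_is_prime (A ⧸ I) p
  have hpI : (p : A) ∈ I := by
    rw [← Ideal.Quotient.eq_zero_iff_mem, map_natCast]
    exact CharP.cast_eq_zero (A ⧸ I) p
  refine ⟨p, hpp, fun g hg => ?_⟩
  have hmem : ∀ h : MonoidHom.ker (Matrix.GeneralLinearGroup.map (n := Fin d)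
      (Ideal.Quotient.mk I)), Ent I 1 (((h : Matrix.GeneralLinearGroup (Fin d) A) :
        Matrix (Fin d) (Fin d) A) - 1) := by
    intro h a b
    have h1 : Matrix.GeneralLinearGroup.map (n := Fin d) (Ideal.Quotient.mk I)
        (h : Matrix.GeneralLinearGroup (Fin d) A) = 1 := h.2
    have h2 : (Ideal.Quotient.mk I) ((h : Matrix.GeneralLinearGroup (Fin d) A).1 a b) =
        (1 : Matrix (Fin d) (Fin d) (A ⧸ I)) a b :=
      Matrix.ext_iff.2 (Units.ext_iff.1 h1) a b
    have h3 : (1 : Matrix (Fin d) (Fin d) (A ⧸ I)) a b =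
        (Ideal.Quotient.mk I) ((1 : Matrix (Fin d) (Fin d) A) a b) := by
      rw [Matrix.one_apply, Matrix.one_apply]
      split_ifs
      · exact (map_one _).symm
      · exact (map_zero _).symm
    rw [h3] at h2
    rw [pow_one]
    exact Ideal.Quotient.eq.1 h2
  obtain ⟨a, b, hab⟩ : ∃ a b, (((g : Matrix.GeneralLinearGroup (Fin d) A) :
      Matrix (Fin d) (Fin d) A) - 1) a b ≠ 0 := by
    by_contra hcon
    push Not at hcon
    apply hg
    refine Subtype.ext (Units.ext (Matrix.ext fun a b => ?_))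
    exact sub_eq_zero.1 (hcon a b)
  obtain ⟨j, hj⟩ : ∃ j : ℕ, (((g : Matrix.GeneralLinearGroup (Fin d) A) :
      Matrix (Fin d) (Fin d) A) - 1) a b ∉ I ^ j := by
    by_contra hcon
    push Not at hcon
    apply hab
    have h1 := Ideal.iInf_pow_eq_bot_of_isDomain I hI.ne_top
    have h2 : (((g : Matrix.GeneralLinearGroup (Fin d) A) :
      Matrix (Fin d) (Fin d) A) - 1) a b ∈ (⨅ i : ℕ, I ^ i) := (Submodule.mem_iInf _).2 hcon
    rw [h1] at h2
    exact h2
  have hfinj : Finite (A ⧸ I ^ j) :=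
    Ideal.finite_quotient_pow (IsNoetherian.noetherian I) j
  have hfinM : Finite (Matrix (Fin d) (Fin d) (A ⧸ I ^ j)) :=
    inferInstanceAs (Finite (Fin d → Fin d → A ⧸ I ^ j))
  have hfinG : Finite (Matrix.GeneralLinearGroup (Fin d) (A ⧸ I ^ j)) :=
    inferInstanceAs (Finite (Matrix (Fin d) (Fin d) (A ⧸ I ^ j))ˣ)
  refine ⟨((Matrix.GeneralLinearGroup.map (n := Fin d) (Ideal.Quotient.mk (I ^ j))).comp
    (MonoidHom.ker (Matrix.GeneralLinearGroup.map (n := Fin d)
      (Ideal.Quotient.mk I))).subtype).ker, inferInstance, inferInstance, fun h => ⟨j, ?_⟩, ?_⟩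
  · rw [MonoidHom.mem_ker]
    show Matrix.GeneralLinearGroup.map (n := Fin d) (Ideal.Quotient.mk (I ^ j))
      ((h ^ p ^ j : MonoidHom.ker (Matrix.GeneralLinearGroup.map (n := Fin d)
        (Ideal.Quotient.mk I))) : Matrix.GeneralLinearGroup (Fin d) A) = 1
    rw [lin_mem, Subgroup.coe_pow, Units.val_pow_eq_pow_val]
    exact ent_mono (by omega) (ent_iter hpI (hmem h) j)
  · intro h
    rw [MonoidHom.mem_ker] at h
    exact hj ((lin_mem I j _).1 h a b)

theorem cong_index (A : Type) [CommRing A] (I : Ideal A) (hfin : Finite (A ⧸ I)) (d : ℕ) :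
    (MonoidHom.ker (Matrix.GeneralLinearGroup.map (n := Fin d) (Ideal.Quotient.mk I))).FiniteIndex := by
  have hfinM : Finite (Matrix (Fin d) (Fin d) (A ⧸ I)) :=
    inferInstanceAs (Finite (Fin d → Fin d → A ⧸ I))
  have hfinG : Finite (Matrix.GeneralLinearGroup (Fin d) (A ⧸ I)) :=
    inferInstanceAs (Finite (Matrix (Fin d) (Fin d) (A ⧸ I))ˣ)
  infer_instance

end Pool.Agent.PDR
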