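import Mathlib
import Pool.Agent.PDR.Lin1
import Pool.Agent.PDR.Lin2

set_option autoImplicit false

/-!
# PDR-Lin3: finitely generated linear groups are virtually residually finite p-groups

PLAN.  (1) `resP_of_injective`: for g ≠ 1, j g ≠ 1, take N for j g and N.comap j: normal, finite index
(`Subgroup.FiniteIndex` of comap: instance `Subgroup.finiteIndex_comap`-like, or relIndex), (j h)^(p^e) ∈ N.
(2) `linear_virtRes`: generators S of H (finite); T := the finite set of all entries of φ s and (φ s)⁻¹, s ∈ S.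
A, I from `exists_subring K T`.  ι := Matrix.GeneralLinearGroup.map (A.subtype) : GL_d(A) → GL_d(K) is injective; every
φ s is in its range (the unit with val, inv the lifts of the matrices; the products are 1 because ι is injective on
matrices), so φ maps H into ι.range (closure), hence there is an injective ψ : H →* GL (Fin d) A with ι ∘ ψ = φ
(`MonoidHom.ofInjective` for ι, `MonoidHom.codRestrict`).  Γ := ker (GL_d(A) → GL_d(A/I)), K₀ := Γ.comap ψ: finite index
(`cong_index`), and ResP p K₀ by (1) applied to K₀ → Γ and `cong_resP`.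
-/

namespace Pool.Agent.PDR

private theorem lin3_comap {K K' : Type} [Group K] [Group K'] (j : K →* K') {N : Subgroup K'}
    (hN : N.FiniteIndex) : (N.comap j).FiniteIndex := by
  refine ⟨?_⟩
  rw [Subgroup.index_comap]
  exact fun h => hN.index_ne_zero (Subgroup.index_eq_zero_of_relIndex_eq_zero h)

theorem resP_of_injective {p : ℕ} {K K' : Type} [Group K] [Group K'] (j : K →* K')
    (hj : Function.Injective j) (h : ResP p K') : ResP p K := by
  intro g hg
  have hg' : j g ≠ 1 := fun h1 => hg (hj (by rw [h1, map_one]))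
  obtain ⟨N, hN, hfin, hp, hgN⟩ := h (j g) hg'
  refine ⟨N.comap j, hN.comap j, ?_, fun x => ?_, hgN⟩
  · exact lin3_comap j hfin
  · obtain ⟨e, he⟩ := hp (j x)
    exact ⟨e, by rw [Subgroup.mem_comap, map_pow]; exact he⟩

private theorem lin3_inj {K : Type} [Field K] (A : Subring K) (d : ℕ) :
    Function.Injective (Matrix.GeneralLinearGroup.map (n := Fin d) A.subtype) := by
  intro g h hgh
  apply Units.ext
  apply Matrix.ext
  intro i j
  have h1 : (Matrix.GeneralLinearGroup.map (n := Fin d) A.subtype g : Matrix (Fin d) (Fin d) K) i j =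
      (Matrix.GeneralLinearGroup.map (n := Fin d) A.subtype h : Matrix (Fin d) (Fin d) K) i j := by
    rw [hgh]
  exact Subtype.ext h1

private theorem lin3_range {K : Type} [Field K] (A : Subring K) (d : ℕ) (g : GL (Fin d) K)
    (h1 : ∀ i j, (g : Matrix (Fin d) (Fin d) K) i j ∈ A)
    (h2 : ∀ i j, ((g⁻¹ : GL (Fin d) K) : Matrix (Fin d) (Fin d) K) i j ∈ A) :
    g ∈ (Matrix.GeneralLinearGroup.map (n := Fin d) A.subtype).range := by
  have hinj : ∀ X Y : Matrix (Fin d) (Fin d) A, X.map A.subtype = Y.map A.subtype → X = Y := by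
    intro X Y h
    apply Matrix.ext
    intro i j
    have h3 : X.map A.subtype i j = Y.map A.subtype i j := by rw [h]
    exact Subtype.ext h3
  set M : Matrix (Fin d) (Fin d) A := Matrix.of fun i j => ⟨_, h1 i j⟩ with hM
  set M' : Matrix (Fin d) (Fin d) A := Matrix.of fun i j => ⟨_, h2 i j⟩ with hM'
  have e1 : M.map A.subtype = (g : Matrix (Fin d) (Fin d) K) := rfl
  have e2 : M'.map A.subtype = ((g⁻¹ : GL (Fin d) K) : Matrix (Fin d) (Fin d) K) := rfl
  have m1 : M * M' = 1 := by
    apply hinj
    rw [Matrix.map_mul, e1, e2, Matrix.map_one _ (map_zero _) (map_one _)]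
    exact Units.mul_inv g
  have m2 : M' * M = 1 := by
    apply hinj
    rw [Matrix.map_mul, e1, e2, Matrix.map_one _ (map_zero _) (map_one _)]
    exact Units.inv_mul g
  refine ⟨⟨M, M', m1, m2⟩, ?_⟩
  apply Units.ext
  exact e1

theorem linear_virtRes (K : Type) [Field K] (d : ℕ) (H : Type) [Group H] [Group.FG H]
    (φ : H →* GL (Fin d) K) (hφ : Function.Injective φ) : VirtRes H := by
  obtain ⟨S, hS, hSf⟩ := (Group.fg_iff (G := H)).1 inferInstance
  have hTf : (⋃ s ∈ S, (Set.range (fun ij : Fin d × Fin d =>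
        (φ s : Matrix (Fin d) (Fin d) K) ij.1 ij.2) ∪
      Set.range (fun ij : Fin d × Fin d =>
        (((φ s)⁻¹ : GL (Fin d) K) : Matrix (Fin d) (Fin d) K) ij.1 ij.2))).Finite :=
    hSf.biUnion fun s _ => (Set.finite_range _).union (Set.finite_range _)
  obtain ⟨A, hA, hNoe, I, hI, hfin⟩ := exists_subring K hTf.toFinset
  have hA1 : ∀ s ∈ S, ∀ i j, (φ s : Matrix (Fin d) (Fin d) K) i j ∈ A := by
    intro s hs i j
    apply hA
    rw [Set.Finite.mem_toFinset]
    exact Set.mem_biUnion hs (Or.inl ⟨(i, j), rfl⟩)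
  have hA2 : ∀ s ∈ S, ∀ i j, (((φ s)⁻¹ : GL (Fin d) K) : Matrix (Fin d) (Fin d) K) i j ∈ A := by
    intro s hs i j
    apply hA
    rw [Set.Finite.mem_toFinset]
    exact Set.mem_biUnion hs (Or.inr ⟨(i, j), rfl⟩)
  set ι : GL (Fin d) A →* GL (Fin d) K := Matrix.GeneralLinearGroup.map (n := Fin d) A.subtype with hι
  have hιi : Function.Injective ι := lin3_inj A d
  have hr : ∀ h : H, φ h ∈ ι.range := by
    have h1 : Subgroup.closure S ≤ ι.range.comap φ := by
      rw [Subgroup.closure_le]
      intro s hs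
      exact lin3_range A d (φ s) (hA1 s hs) (hA2 s hs)
    intro h
    have h2 : h ∈ Subgroup.closure S := by
      rw [hS]
      exact Subgroup.mem_top h
    exact h1 h2
  set ψ : H →* GL (Fin d) A :=
    ((MonoidHom.ofInjective hιi).symm : ι.range →* GL (Fin d) A).comp (φ.codRestrict ι.range hr) with hψ
  have hιψ : ∀ h, ι (ψ h) = φ h := by
    intro h
    exact MonoidHom.apply_ofInjective_symm hιi (φ.codRestrict ι.range hr h)
  have hψi : Function.Injective ψ := by
    intro a b hab
    apply hφ
    rw [← hιψ, ← hιψ, hab]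
  have := hNoe
  obtain ⟨p, hp, hres⟩ := cong_resP A I hI hfin d
  have hidx := cong_index A I hfin d
  refine ⟨p, hp, (MonoidHom.ker (Matrix.GeneralLinearGroup.map (n := Fin d)
    (Ideal.Quotient.mk I))).comap ψ, ?_, ?_⟩
  · exact lin3_comap ψ hidx
  · refine resP_of_injective (ψ.subgroupComap (MonoidHom.ker (Matrix.GeneralLinearGroup.map
      (n := Fin d) (Ideal.Quotient.mk I)))) ?_ hres
    intro a b hab
    apply Subtype.ext
    apply hψi
    exact congrArg Subtype.val hab

end Pool.Agent.PDR
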