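import Mathlib

set_option autoImplicit false

/-!
# PDR-KerB: eigenvectors of the left multiplication by a group element on a group algebra

An eigenvector (eigenvalue `ε` with `ε ^ 2 = 1`) of the left multiplication by `h` is determined by
its values on representatives of the cosets of `C = ⟨h⟩`, so the eigenspace has dimension at most
the index of `C`.
-/

namespace Pool.Agent.PDR

open MonoidAlgebra

private lemma ker_coeff {k : Type} [Field k] {F : Type} [Group F] {h : F} {ε : k}
    {v : MonoidAlgebra k F}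
    (hv : v ∈ LinearMap.ker
      ((LinearMap.mulLeft k (of k F h) : MonoidAlgebra k F →ₗ[k] MonoidAlgebra k F) -
        ε • (LinearMap.id : MonoidAlgebra k F →ₗ[k] MonoidAlgebra k F))) (x : F) :
    v.coeff (h⁻¹ * x) = ε * v.coeff x := by
  rw [LinearMap.mem_ker, LinearMap.sub_apply, sub_eq_zero, LinearMap.mulLeft_apply,
    LinearMap.smul_apply, LinearMap.id_apply] at hv
  have h1 := congrArg (fun w : MonoidAlgebra k F => w.coeff x) hv
  simp only [of_apply, coeff_single_mul_apply, coeff_smul_apply, one_mul, smul_eq_mul] at h1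
  exact h1

private lemma ker_zpow {k : Type} [Field k] {F : Type} [Group F] {h : F} {ε : k}
    (hε : ε * ε = 1) {f : F → k} (hf : ∀ x, f (h⁻¹ * x) = ε * f x) {y : F} (hy : f y = 0)
    (n : ℤ) : f (h ^ n * y) = 0 := by
  have hε0 : ε ≠ 0 := by
    intro h0
    rw [h0, mul_zero] at hε
    exact zero_ne_one hε
  induction n using Int.induction_on with
  | zero => simpa using hy
  | succ i ih =>
    have h1 := hf (h ^ ((i : ℤ) + 1) * y)
    rw [← mul_assoc, ← zpow_neg_one, ← zpow_add] at h1
    rw [show (-1 + ((i : ℤ) + 1)) = (i : ℤ) by ring, ih] at h1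
    exact (mul_eq_zero.mp h1.symm).resolve_left hε0
  | pred i ih =>
    have h1 := hf (h ^ (-(i : ℤ)) * y)
    rw [ih, mul_zero, ← mul_assoc, ← zpow_neg_one, ← zpow_add] at h1
    rw [show (-(i : ℤ) - 1) = (-1 + -(i : ℤ)) by ring]
    exact h1

theorem ker_bound (k : Type) [Field k] (F : Type) [Group F] [Finite F] (h : F) (ε : k)
    (hε : ε * ε = 1) :
    orderOf h * Module.finrank k (LinearMap.ker
      ((LinearMap.mulLeft k (of k F h) : MonoidAlgebra k F →ₗ[k] MonoidAlgebra k F) -
        ε • (LinearMap.id : MonoidAlgebra k F →ₗ[k] MonoidAlgebra k F))) ≤ Nat.card F := by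
  classical
  set W := LinearMap.ker
      ((LinearMap.mulLeft k (of k F h) : MonoidAlgebra k F →ₗ[k] MonoidAlgebra k F) -
        ε • (LinearMap.id : MonoidAlgebra k F →ₗ[k] MonoidAlgebra k F)) with hW
  let C : Subgroup F := Subgroup.zpowers h
  haveI : Finite (F ⧸ C) := inferInstance
  haveI : Fintype (F ⧸ C) := Fintype.ofFinite _
  let Φ : W →ₗ[k] (F ⧸ C → k) :=
    { toFun := fun v c => v.1.coeff ((Quotient.out c)⁻¹)
      map_add' := fun v w => rfl
      map_smul' := fun a v => rfl }
  have hinj : Function.Injective Φ := by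
    rw [← LinearMap.ker_eq_bot, LinearMap.ker_eq_bot']
    intro v hv
    have hcoef : ∀ x : F, v.1.coeff x = 0 := by
      intro x
      have h1 : v.1.coeff ((Quotient.out ((x⁻¹ : F) : F ⧸ C))⁻¹) = 0 := congrFun hv _
      have h2 : (Quotient.out ((x⁻¹ : F) : F ⧸ C))⁻¹ * x⁻¹ ∈ C :=
        QuotientGroup.eq.mp (Quotient.out_eq ((x⁻¹ : F) : F ⧸ C))
      obtain ⟨n, hn⟩ := Subgroup.mem_zpowers_iff.mp h2
      have h3 := ker_zpow hε (f := fun x => v.1.coeff x) (fun x => ker_coeff v.2 x) h1 (-n)
      have h4 : h ^ (-n) * (Quotient.out ((x⁻¹ : F) : F ⧸ C))⁻¹ = x := by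
        rw [zpow_neg, hn]; group
      rw [h4] at h3
      exact h3
    apply Subtype.ext
    apply MonoidAlgebra.coeffEquiv.injective
    exact Finsupp.ext hcoef
  have h1 : Module.finrank k W ≤ C.index := by
    have h2 := LinearMap.finrank_le_finrank_of_injective hinj
    rw [Module.finrank_fintype_fun_eq_card] at h2
    rwa [Subgroup.index, Nat.card_eq_fintype_card]
  calc orderOf h * Module.finrank k W ≤ orderOf h * C.index := Nat.mul_le_mul_left _ h1
    _ = Nat.card C * C.index := by rw [Nat.card_zpowers]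
    _ = Nat.card F := Subgroup.card_mul_index C

end Pool.Agent.PDR
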