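import Mathlib
import Pool.Agent.PDR.RDefs

set_option autoImplicit false

/-!
# PDR-OrdT: the orders of the images of an element of infinite order in the quotients of a chain tend to infinity

PLAN.  `Filter.tendsto_atTop.2`: let b be given.  For each m with 1 ≤ m < b + 1 there is i_m with
h ^ m ∉ C.N i_m (C.sep, hh).  Let i0 be the maximum (use `Finset.sup` or `Filter.eventually_all_finset`).
For i ≥ i0: C.N i ≤ C.N i_m (`antitone_nat_of_succ_le C.anti`).  If orderOf (h : K ⧸ C.N i) < b then with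
m = orderOf (h : K ⧸ C.N i) > 0 (the quotient is finite: `orderOf_pos`) we get
(h ^ m : K ⧸ C.N i) = 1, so h ^ m ∈ C.N i ≤ C.N i_m (`QuotientGroup.eq_one_iff`), a contradiction.
-/

namespace Pool.Agent.PDR

theorem ord_tendsto {p : ℕ} {K : Type} [Group K] (C : PChain p K) (h : K)
    (hh : ∀ m : ℕ, 0 < m → h ^ m ≠ 1) :
    Filter.Tendsto (fun i => orderOf (QuotientGroup.mk h : K ⧸ C.N i)) Filter.atTop
      Filter.atTop := by
  have hanti : Antitone C.N := antitone_nat_of_succ_le C.anti
  refine Filter.tendsto_atTop.2 fun b => ?_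
  choose! I hI using fun (m : ℕ) (hm : 0 < m) => C.sep (h ^ m) (hh m hm)
  filter_upwards [Filter.eventually_ge_atTop ((Finset.range (b + 1)).sup I)] with i hi
  by_contra hlt
  have hlt' : orderOf (QuotientGroup.mk h : K ⧸ C.N i) < b := not_le.1 hlt
  have hfin : Finite (K ⧸ C.N i) := Subgroup.finite_quotient_of_finiteIndex
  have hpos : 0 < orderOf (QuotientGroup.mk h : K ⧸ C.N i) := orderOf_pos _
  have h1 : (QuotientGroup.mk (h ^ orderOf (QuotientGroup.mk h : K ⧸ C.N i)) : K ⧸ C.N i) = 1 := by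
    rw [QuotientGroup.mk_pow, pow_orderOf_eq_one]
  have h2 : h ^ orderOf (QuotientGroup.mk h : K ⧸ C.N i) ∈ C.N i :=
    (QuotientGroup.eq_one_iff _).1 h1
  refine hI _ hpos (hanti (le_trans (Finset.le_sup (f := I) ?_) hi) h2)
  rw [Finset.mem_range]
  omega

end Pool.Agent.PDR
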