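import Mathlib

set_option autoImplicit false

/-!
# PDR-RkA: rank of a composition (Mathlib only)

PLAN.  `LinearMap.finrank_range_add_finrank_ker` for w, L and w * L.  ker (w * L) = comap L (ker w);
finrank (ker (w * L)) ≤ finrank (ker L) + finrank (ker w) (restrict L to ker (w * L) → ker w, kernel ≤ ker L).
Hence finrank range (w*L) = finrank V - finrank ker (w*L) ≥ finrank V - finrank ker L - finrank ker w
= finrank range w - finrank ker L.
-/

namespace Pool.Agent.PDR

theorem finrank_range_le_comp (k : Type) [Field k] (V : Type) [AddCommGroup V] [Module k V]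
    [Module.Finite k V] (w L : Module.End k V) :
    Module.finrank k (LinearMap.range w) ≤
      Module.finrank k (LinearMap.range (w * L)) + Module.finrank k (LinearMap.ker L) := by
  have h1 := LinearMap.finrank_range_add_finrank_ker w
  have h2 := LinearMap.finrank_range_add_finrank_ker L
  -- restrict `w` to the range of `L`
  have h3 := LinearMap.finrank_range_add_finrank_ker (w.domRestrict (LinearMap.range L))
  have h4 : LinearMap.range (w.domRestrict (LinearMap.range L)) = LinearMap.range (w * L) := by
    ext x
    constructor
    · rintro ⟨⟨y, z, rfl⟩, rfl⟩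
      exact ⟨z, rfl⟩
    · rintro ⟨z, rfl⟩
      exact ⟨⟨L z, z, rfl⟩, rfl⟩
  have h5 : Module.finrank k (LinearMap.ker (w.domRestrict (LinearMap.range L))) ≤
      Module.finrank k (LinearMap.ker w) := by
    let g : LinearMap.ker (w.domRestrict (LinearMap.range L)) →ₗ[k] LinearMap.ker w :=
      { toFun := fun x => ⟨x.1.1, by
          have := x.2
          rw [LinearMap.mem_ker] at this ⊢
          exact this⟩
        map_add' := fun _ _ => rfl
        map_smul' := fun _ _ => rfl }
    refine LinearMap.finrank_le_finrank_of_injective (f := g) ?_
    intro x y hxy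
    have h := congrArg Subtype.val hxy
    exact Subtype.ext (Subtype.ext h)
  rw [h4] at h3
  omega

end Pool.Agent.PDR
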