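import Mathlib
import Pool.Agent.PDR.RkA
import Pool.Agent.PDR.KerB
import Pool.Agent.PDR.OrdT

set_option autoImplicit false

/-!
# PDR-NoF: the coefficient ring of a chain of a torsion-free group has no fixed vectors

The kernel of right multiplication by a group element minus a sign has dimension at most the index of the cyclic group
generated by the element in the finite quotients, and the orders tend to infinity.
-/

namespace Pool.Agent.PDR

open MonoidAlgebra

private theorem noF_redM {p : ℕ} [Fact p.Prime] {K : Type} [Group K] (N : Subgroup K) [N.Normal] (h : K) :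
    redM p N (of ℤ K h) = of (ZMod p) (K ⧸ N) (QuotientGroup.mk h) := by
  simp only [redM, RingHom.comp_apply, of_apply, mapDomainRingHom_apply, mapDomain_single, mapRingHom_single]
  simp

private theorem noF_L {p : ℕ} [Fact p.Prime] {K : Type} [Group K] (C : PChain p K) (h : K) (i : ℕ) (ε : ZMod p) :
    C.f i (of ℤ K h) - ε • (1 : Module.End (ZMod p) (C.V i)) =
      ((LinearMap.mulLeft (ZMod p) (of (ZMod p) (K ⧸ C.N i) (QuotientGroup.mk h)) :
        MonoidAlgebra (ZMod p) (K ⧸ C.N i) →ₗ[ZMod p] MonoidAlgebra (ZMod p) (K ⧸ C.N i)) -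
        ε • (LinearMap.id : MonoidAlgebra (ZMod p) (K ⧸ C.N i) →ₗ[ZMod p]
          MonoidAlgebra (ZMod p) (K ⧸ C.N i))) := by
  refine LinearMap.ext fun v => ?_
  rw [LinearMap.sub_apply, LinearMap.sub_apply, C.f_apply, noF_redM, LinearMap.mulLeft_apply]
  rfl

private theorem noF_finrank {p : ℕ} [Fact p.Prime] {K : Type} [Group K] (C : PChain p K) (i : ℕ) :
    Module.finrank (ZMod p) (C.V i) = Nat.card (K ⧸ C.N i) := by
  have : Finite (K ⧸ C.N i) := Subgroup.finite_quotient_of_finiteIndex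
  have : Fintype (K ⧸ C.N i) := Fintype.ofFinite _
  rw [(MonoidAlgebra.coeffLinearEquiv (ZMod p)).finrank_eq, Module.finrank_finsupp_self, Nat.card_eq_fintype_card]

theorem noFix_chain {p : ℕ} [Fact p.Prime] {K : Type} [Group K] (C : PChain p K)
    (htf : ∀ g : K, g ≠ 1 → ∀ m : ℕ, 0 < m → g ^ m ≠ 1) : NoFix C.fD := by
  intro h d hd hd0
  by_contra hne
  obtain ⟨w, rfl⟩ := Ideal.Quotient.mk_surjective d
  have hF : C.fD (of ℤ K h) = Ideal.Quotient.mk (JI (ZMod p) C.V) (fun i => C.f i (of ℤ K h)) := rfl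
  have key : ∃ ε : ZMod p, ε * ε = 1 ∧
      (fun i => w i * C.f i (of ℤ K h) - ε • w i) ∈ JI (ZMod p) C.V := by
    rcases hd with hd | hd
    · refine ⟨1, one_mul 1, ?_⟩
      rw [hF, ← map_mul, ← sub_eq_zero, ← map_sub, Ideal.Quotient.eq_zero_iff_mem] at hd
      refine (congrArg (fun z => z ∈ JI (ZMod p) C.V) (funext fun i => ?_)).mp hd
      show w i * C.f i (of ℤ K h) - w i = _
      rw [one_smul]
    · refine ⟨-1, by ring, ?_⟩
      rw [hF, ← map_mul, eq_neg_iff_add_eq_zero, ← map_add, Ideal.Quotient.eq_zero_iff_mem] at hd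
      refine (congrArg (fun z => z ∈ JI (ZMod p) C.V) (funext fun i => ?_)).mp hd
      show w i * C.f i (of ℤ K h) + w i = _
      have h1 : (-1 : ZMod p) • w i = - w i := by
        refine LinearMap.ext fun v => ?_
        show (-1 : ZMod p) • (w i v) = - (w i v)
        rw [neg_smul, one_smul]
      rw [h1, sub_neg_eq_add]
  obtain ⟨ε, hε, hmem⟩ := key
  rw [mem_JI] at hmem
  have hord := ord_tendsto C h (htf h hne)
  have h1 : Filter.Tendsto (fun i => ((orderOf (QuotientGroup.mk h : K ⧸ C.N i) : ℝ))⁻¹) Filter.atTop (nhds 0) :=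
    tendsto_inv_atTop_zero.comp (tendsto_natCast_atTop_atTop.comp hord)
  have h2 := hmem.add h1
  rw [add_zero] at h2
  apply hd0
  rw [Ideal.Quotient.eq_zero_iff_mem, mem_JI]
  refine squeeze_zero (fun i => nrk_nonneg _ _ i _) (fun i => ?_) h2
  have hfin : Finite (K ⧸ C.N i) := Subgroup.finite_quotient_of_finiteIndex
  have h3 : w i * C.f i (of ℤ K h) - ε • w i = w i * (C.f i (of ℤ K h) - ε • (1 : Module.End (ZMod p) (C.V i))) := by
    rw [mul_sub, mul_smul_comm, mul_one]
  have h4 := finrank_range_le_comp (ZMod p) (C.V i) (w i)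
    (C.f i (of ℤ K h) - ε • (1 : Module.End (ZMod p) (C.V i)))
  have h5 := ker_bound (ZMod p) (K ⧸ C.N i) (QuotientGroup.mk h) ε hε
  rw [← noF_L C h i ε, ← noF_finrank C i] at h5
  rw [h3]
  unfold nrk
  have hn : 0 < Module.finrank (ZMod p) (C.V i) := by
    rw [noF_finrank C i]
    exact Nat.card_pos
  have ho : 0 < orderOf (QuotientGroup.mk h : K ⧸ C.N i) := orderOf_pos _
  have hn' : (0 : ℝ) < (Module.finrank (ZMod p) (C.V i) : ℝ) := by exact_mod_cast hn
  have ho' : (0 : ℝ) < (orderOf (QuotientGroup.mk h : K ⧸ C.N i) : ℝ) := by exact_mod_cast ho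
  set X := C.f i (of ℤ K h) - ε • (1 : Module.End (ZMod p) (C.V i)) with hX
  have h6 : (Module.finrank (ZMod p) (LinearMap.ker X) : ℝ) / (Module.finrank (ZMod p) (C.V i) : ℝ) ≤
      ((orderOf (QuotientGroup.mk h : K ⧸ C.N i) : ℝ))⁻¹ := by
    rw [div_le_iff₀ hn', inv_mul_eq_div, le_div_iff₀ ho']
    have : (orderOf (QuotientGroup.mk h : K ⧸ C.N i) : ℝ) * (Module.finrank (ZMod p) (LinearMap.ker X) : ℝ) ≤
        (Module.finrank (ZMod p) (C.V i) : ℝ) := by exact_mod_cast h5
    linarith
  have h7 : (Module.finrank (ZMod p) (LinearMap.range (w i)) : ℝ) ≤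
      (Module.finrank (ZMod p) (LinearMap.range (w i * X)) : ℝ) + (Module.finrank (ZMod p) (LinearMap.ker X) : ℝ) := by
    exact_mod_cast h4
  calc (Module.finrank (ZMod p) (LinearMap.range (w i)) : ℝ) / (Module.finrank (ZMod p) (C.V i) : ℝ)
      ≤ ((Module.finrank (ZMod p) (LinearMap.range (w i * X)) : ℝ) +
          (Module.finrank (ZMod p) (LinearMap.ker X) : ℝ)) / (Module.finrank (ZMod p) (C.V i) : ℝ) :=
        div_le_div_of_nonneg_right h7 hn'.le
    _ = (Module.finrank (ZMod p) (LinearMap.range (w i * X)) : ℝ) / (Module.finrank (ZMod p) (C.V i) : ℝ) +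
          (Module.finrank (ZMod p) (LinearMap.ker X) : ℝ) / (Module.finrank (ZMod p) (C.V i) : ℝ) := add_div _ _ _
    _ ≤ _ := by
        have := h6
        linarith

end Pool.Agent.PDR
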