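import Mathlib
import Pool.Agent.PDC.DualB

set_option autoImplicit false

/-!
# PDR-QMap: the lift of relations to P2 is linear

PLAN.  Existence for every z in the kernel: q0 with d2 q0 = ∑ inc (z j) • y j (`(X.ex1 _).1 (hcomp ..)`), and
q z := q0 - d3 (ρ q0): d2 (d3 _) = 0 (`X.ex2`), ρ (q z) = ρ q0 - ρ q0 = 0 by hρ2.
Uniqueness: d2 q = d2 q', ρ q = ρ q' = 0 ⇒ q - q' = d3 w (`X.ex2`), w = ρ (d3 w) = 0.
So q is additive and q (a • z) = inc H a • q z (both sides satisfy the two conditions; hρ1; inc is multiplicative,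
(a • z) j = a * z j).  `AddMonoidHom.mk'`.
-/

namespace Pool.Agent.PDR

open MonoidAlgebra Pool.Agent.PDC

theorem qmap_exists {G : Type} [Group G] (X : PD3 G) (H : Subgroup G) (ρ : X.P2 →+ X.P3)
    (hρ1 : ∀ (a : MonoidAlgebra ℤ H) (q : X.P2), ρ (inc H a • q) = inc H a • ρ q)
    (hρ2 : ∀ y : X.P3, ρ (X.d3 y) = y) {n : ℕ} (x : Fin n → H) (y : Fin n → X.P1)
    (hcomp : ∀ z : Fin n → MonoidAlgebra ℤ H, bd x z = 0 →
      X.d1 (∑ j, inc H (z j) • y j) = 0) :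
    ∃ q : ↥(LinearMap.ker (bd x)) →+ X.P2,
      (∀ z, X.d2 (q z) = ∑ j, inc H (z.1 j) • y j) ∧ (∀ z, ρ (q z) = 0) ∧
      ∀ (a : MonoidAlgebra ℤ H) (z : ↥(LinearMap.ker (bd x))), q (a • z) = inc H a • q z := by
  have hex : ∀ z : ↥(LinearMap.ker (bd x)), ∃ q : X.P2,
      X.d2 q = ∑ j, inc H (z.1 j) • y j ∧ ρ q = 0 := by
    intro z
    have hz : bd x z.1 = 0 := z.2
    obtain ⟨q0, hq0⟩ := (X.ex1 _).1 (hcomp z.1 hz)
    refine ⟨q0 - X.d3 (ρ q0), ?_, ?_⟩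
    · have h1 : X.d2 (X.d3 (ρ q0)) = 0 := (X.ex2 _).2 ⟨_, rfl⟩
      rw [map_sub, h1, sub_zero, hq0]
    · rw [map_sub, hρ2, sub_self]
  have huniq : ∀ q q' : X.P2, X.d2 q = X.d2 q' → ρ q = 0 → ρ q' = 0 → q = q' := by
    intro q q' h1 h2 h3
    have h4 : X.d2 (q - q') = 0 := by rw [map_sub, h1, sub_self]
    obtain ⟨w, hw⟩ := (X.ex2 _).1 h4
    have h5 : w = 0 := by
      have h6 := hρ2 w
      rw [hw, map_sub, h2, h3, sub_self] at h6
      exact h6.symm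
    rw [h5, map_zero] at hw
    exact sub_eq_zero.1 hw.symm
  choose q0 h1 h2 using hex
  have hadd : ∀ z z' : ↥(LinearMap.ker (bd x)), q0 (z + z') = q0 z + q0 z' := by
    intro z z'
    refine huniq _ _ ?_ (h2 _) ?_
    · rw [map_add, h1, h1, h1, ← Finset.sum_add_distrib]
      refine Finset.sum_congr rfl fun j _ => ?_
      show inc H (z.1 j + z'.1 j) • y j = _
      rw [map_add, add_smul]
    · rw [map_add, h2, h2, add_zero]
  refine ⟨AddMonoidHom.mk' q0 hadd, h1, h2, fun a z => ?_⟩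
  show q0 (a • z) = inc H a • q0 z
  refine huniq _ _ ?_ (h2 _) ?_
  · rw [map_smul, h1, h1, Finset.smul_sum]
    refine Finset.sum_congr rfl fun j _ => ?_
    show inc H (a * z.1 j) • y j = _
    rw [map_mul, mul_smul]
  · rw [hρ1, h2, smul_zero]

end Pool.Agent.PDR
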