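import Mathlib

set_option autoImplicit false

/-!
# PDR-FixV: matrices over the group algebra of a finite p-group with invertible augmentation are injective
(Mathlib only)

The kernel is a finite vector space over F_p on which the p-group F acts by right multiplication; a nonzero fixed
point is a vector of multiples of the norm element, on which the matrix acts through its augmentation.
-/

namespace Pool.Agent.PDR

open MonoidAlgebra

/-- The augmentation of a group algebra. -/
noncomputable def augK (k : Type) [Field k] (F : Type) [Group F] : MonoidAlgebra k F →+* k :=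
  (MonoidAlgebra.lift k k F (1 : F →* k)).toRingHom

@[simp] theorem augK_of (k : Type) [Field k] (F : Type) [Group F] (g : F) :
    augK k F (of k F g) = 1 := by
  simp [augK]

private theorem fv_smul (k : Type) [Field k] (F : Type) [Group F] (r : k) (x : MonoidAlgebra k F) :
    augK k F (r • x) = r * augK k F x := by
  show (MonoidAlgebra.lift k k F (1 : F →* k)) (r • x) =
    r * (MonoidAlgebra.lift k k F (1 : F →* k)) x
  rw [map_smul, smul_eq_mul]

private theorem fv_norm (k : Type) [Field k] (F : Type) [Group F] [Fintype F] (a : MonoidAlgebra k F) :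
    a * (∑ g : F, of k F g) = augK k F a • (∑ g : F, of k F g) := by
  induction a using MonoidAlgebra.induction_on with
  | of h =>
    rw [augK_of, one_smul, Finset.mul_sum]
    have h1 : ∀ g, of k F h * of k F g = of k F (h * g) := fun g => (map_mul _ _ _).symm
    rw [Finset.sum_congr rfl fun g _ => h1 g]
    exact Fintype.sum_equiv (Equiv.mulLeft h) _ _ (fun g => rfl)
  | add x y hx hy => rw [add_mul, hx, hy, map_add, add_smul]
  | smul r x hx => rw [smul_mul_assoc, hx, fv_smul, mul_smul]

private theorem fv_fix (k : Type) [Field k] (F : Type) [Group F] [Fintype F] (x : MonoidAlgebra k F)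
    (h : ∀ g : F, x * of k F g⁻¹ = x) : x = x.coeff 1 • (∑ g : F, of k F g) := by
  classical
  ext g
  have h1 : (x * of k F g⁻¹).coeff 1 = x.coeff g := by
    show (x * single g⁻¹ 1).coeff 1 = x.coeff g
    rw [coeff_mul_single_apply, inv_inv, one_mul, mul_one]
  rw [h g] at h1
  have h2 : (∑ g : F, of k F g).coeff g = 1 := by
    rw [coeff_sum, Finsupp.finsetSum_apply]
    have h3 : ∀ i : F, (of k F i).coeff g = if i = g then 1 else 0 := by
      intro i
      show (Finsupp.single i (1 : k)) g = _
      rw [Finsupp.single_apply]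
    rw [Finset.sum_congr rfl fun i _ => h3 i, Finset.sum_ite_eq' Finset.univ g,
      if_pos (Finset.mem_univ g)]
  rw [coeff_smul_apply, h2, smul_eq_mul, mul_one, h1]

/-- the kernel as a subspace -/
private def fvW (p : ℕ) [Fact p.Prime] (F : Type) [Group F] (m : ℕ)
    (Λ : Fin m → Fin m → MonoidAlgebra (ZMod p) F) :
    Submodule (ZMod p) (Fin m → MonoidAlgebra (ZMod p) F) where
  carrier := {x | ∀ a, ∑ l, Λ a l * x l = 0}
  add_mem' := by
    intro x y hx hy a
    have h1 : ∀ l, Λ a l * (x + y) l = Λ a l * x l + Λ a l * y l := fun l => mul_add _ _ _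
    rw [Finset.sum_congr rfl fun l _ => h1 l, Finset.sum_add_distrib, hx a, hy a, add_zero]
  zero_mem' := by
    intro a
    exact Finset.sum_eq_zero fun l _ => mul_zero _
  smul_mem' := by
    intro c x hx a
    have h1 : ∀ l, Λ a l * (c • x) l = c • (Λ a l * x l) := fun l => by
      rw [Pi.smul_apply, mul_smul_comm]
    rw [Finset.sum_congr rfl fun l _ => h1 l, ← Finset.smul_sum, hx a, smul_zero]

private theorem fv_mem {p : ℕ} [Fact p.Prime] {F : Type} [Group F] {m : ℕ}
    {Λ : Fin m → Fin m → MonoidAlgebra (ZMod p) F} {x : Fin m → MonoidAlgebra (ZMod p) F}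
    (hx : x ∈ fvW p F m Λ) (g : F) : (fun l => x l * of (ZMod p) F g⁻¹) ∈ fvW p F m Λ := by
  intro a
  have h1 : ∀ l, Λ a l * (x l * of (ZMod p) F g⁻¹) = (Λ a l * x l) * of (ZMod p) F g⁻¹ :=
    fun l => (mul_assoc _ _ _).symm
  show ∑ l, Λ a l * (x l * of (ZMod p) F g⁻¹) = 0
  rw [Finset.sum_congr rfl fun l _ => h1 l, ← Finset.sum_mul, hx a, zero_mul]

theorem mulMat_injective (p : ℕ) [Fact p.Prime] (F : Type) [Group F] [Finite F]
    (hF : ∀ g : F, ∃ e : ℕ, g ^ (p ^ e) = 1) (m : ℕ)
    (Λ : Fin m → Fin m → MonoidAlgebra (ZMod p) F)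
    (hΛ : IsUnit (Matrix.of fun a l => augK (ZMod p) F (Λ a l)).det)
    (x : Fin m → MonoidAlgebra (ZMod p) F) (hx : ∀ a, ∑ l, Λ a l * x l = 0) : x = 0 := by
  classical
  have hfin := Fintype.ofFinite F
  by_contra hx0
  have hA : Finite (MonoidAlgebra (ZMod p) F) :=
    Finite.of_equiv (F → ZMod p)
      ((MonoidAlgebra.coeffEquiv (R := ZMod p) (M := F)).trans Finsupp.equivFunOnFinite).symm
  let act : MulAction F (fvW p F m Λ) :=
    { smul := fun g x => ⟨fun l => x.1 l * of (ZMod p) F g⁻¹, fv_mem x.2 g⟩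
      one_smul := fun x => by
        refine Subtype.ext (funext fun l => ?_)
        show x.1 l * of (ZMod p) F (1 : F)⁻¹ = x.1 l
        rw [inv_one, map_one, mul_one]
      mul_smul := fun g h x => by
        refine Subtype.ext (funext fun l => ?_)
        show x.1 l * of (ZMod p) F (g * h)⁻¹ = x.1 l * of (ZMod p) F h⁻¹ * of (ZMod p) F g⁻¹
        rw [mul_inv_rev, map_mul, mul_assoc] }
  have hnt : Nontrivial (fvW p F m Λ) := by
    refine ⟨⟨⟨x, hx⟩, 0, fun h => hx0 ?_⟩⟩
    exact congrArg Subtype.val h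
  have hcard : p ∣ Nat.card (fvW p F m Λ) := by
    rw [Module.natCard_eq_pow_finrank (K := ZMod p), Nat.card_zmod]
    exact dvd_pow_self p (Module.finrank_pos (R := ZMod p) (M := fvW p F m Λ)).ne'
  have hpg : IsPGroup p F := hF
  have h0 : (0 : fvW p F m Λ) ∈ MulAction.fixedPoints F (fvW p F m Λ) := by
    rw [MulAction.mem_fixedPoints]
    intro g
    refine Subtype.ext (funext fun l => ?_)
    show (0 : MonoidAlgebra (ZMod p) F) * of (ZMod p) F g⁻¹ = 0
    exact zero_mul _
  obtain ⟨y, hy, hy0⟩ :=
    hpg.exists_fixed_point_of_prime_dvd_card_of_fixed_point (fvW p F m Λ) hcard h0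
  rw [MulAction.mem_fixedPoints] at hy
  have hyl : ∀ l, y.1 l = (y.1 l).coeff 1 • (∑ g : F, of (ZMod p) F g) := by
    intro l
    refine fv_fix (ZMod p) F (y.1 l) fun g => ?_
    exact congrFun (congrArg Subtype.val (hy g)) l
  have hN : (∑ g : F, of (ZMod p) F g) ≠ 0 := by
    intro h
    apply hy0
    refine Subtype.ext (funext fun l => ?_)
    rw [hyl l, h, smul_zero]
    rfl
  have hmul : (Matrix.of fun a l => augK (ZMod p) F (Λ a l)).mulVec (fun l => (y.1 l).coeff 1) = 0 := by
    funext a
    have h1 : ∑ l, Λ a l * y.1 l = 0 := y.2 a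
    have h2 : ∀ l, Λ a l * y.1 l =
        (augK (ZMod p) F (Λ a l) * (y.1 l).coeff 1) • (∑ g : F, of (ZMod p) F g) := by
      intro l
      conv_lhs => rw [hyl l]
      rw [mul_smul_comm, fv_norm, smul_smul, mul_comm]
    rw [Finset.sum_congr rfl fun l _ => h2 l, ← Finset.sum_smul] at h1
    exact (smul_eq_zero.1 h1).resolve_right hN
  have hc := Matrix.eq_zero_of_mulVec_eq_zero hΛ.ne_zero hmul
  apply hy0
  refine Subtype.ext (funext fun l => ?_)
  have h1 : (y.1 l).coeff 1 = 0 := congrFun hc l
  rw [hyl l, h1, zero_smul]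
  rfl

end Pool.Agent.PDR
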