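import Mathlib

set_option autoImplicit false

/-!
# PDR-LinV: a surjection killing few equations (Mathlib only)

PLAN.  Φ : (T → V) →ₗ[k] (Fin m → V), Φ x a = ∑ t, M a t (x t); W := range Φ, finrank W ≤ card T * finrank V.
Q := (Fin m → V) ⧸ W has finrank ≥ (m - card T) * finrank V ≥ finrank V (`Submodule.finrank_quotient_add_finrank`,
`Module.finrank_pi_fintype`).  So there is a surjective π : Q →ₗ V (an injective V →ₗ Q exists because
finrank V ≤ finrank Q, take a left inverse `LinearMap.exists_leftInverse_of_injective`; or choose bases).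
v a y := π (mk (Pi.single a y)), so ∑ a, v a (y a) = π (mk y) and ∑ a, v a * M a t = 0 (evaluate Φ at Pi.single t z).
For Λ: Ψ : (Fin m → V) →ₗ (Fin m → V), Ψ x a = ∑ l, Λ a l (x l), is injective, hence surjective
(`LinearMap.injective_iff_surjective`).  u l := ∑ a, v a * Λ a l; ∑ l, u l (x l) = π (mk (Ψ x)), so the ranges of
the u l span V: ⊤ ≤ ⨆ l, range (u l), and finrank V ≤ ∑ l, finrank (range (u l)) (`Submodule.finrank_...`
for iSup/sum: induction over the Finset with `Submodule.finrank_add_le_finrank_add_finrank`).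
-/

namespace Pool.Agent.PDR

private lemma mkQ_eq_zero (k V U : Type) [Field k] [AddCommGroup V] [Module k V] [AddCommGroup U]
    [Module k U] (W : Submodule k U) (pi0 : (U ⧸ W) →ₗ[k] V) (y : U) (hy : y ∈ W) :
    pi0 (W.mkQ y) = 0 := by
  have h : W.mkQ y = 0 := by
    rw [Submodule.mkQ_apply]
    exact (Submodule.Quotient.mk_eq_zero W).mpr hy
  rw [h, map_zero]

private lemma exists_surj (k V Q : Type) [Field k] [AddCommGroup V] [Module k V]
    [Module.Finite k V] [AddCommGroup Q] [Module k Q] [Module.Finite k Q]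
    (h : Module.finrank k V ≤ Module.finrank k Q) :
    ∃ p : Q →ₗ[k] V, Function.Surjective p := by
  classical
  let b := Module.finBasis k V
  let c := Module.finBasis k Q
  refine ⟨c.constr k (fun i : Fin (Module.finrank k Q) =>
    if hi : (i : ℕ) < Module.finrank k V then b ⟨i, hi⟩ else 0), ?_⟩
  rw [← LinearMap.range_eq_top, eq_top_iff, ← b.span_eq, Submodule.span_le]
  rintro _ ⟨j, rfl⟩
  have hj : (j : ℕ) < Module.finrank k Q := lt_of_lt_of_le j.2 h
  refine ⟨c ⟨j, hj⟩, ?_⟩
  rw [Module.Basis.constr_basis]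
  have h2 : (((⟨j, hj⟩ : Fin (Module.finrank k Q)) : ℕ)) < Module.finrank k V := j.2
  rw [dif_pos h2]

private lemma finrank_iSup_le' (k V : Type) [Field k] [AddCommGroup V] [Module k V]
    [Module.Finite k V] (ι : Type) (s : Finset ι) (S : ι → Submodule k V) :
    Module.finrank k (⨆ i ∈ s, S i : Submodule k V) ≤ ∑ i ∈ s, Module.finrank k (S i) := by
  classical
  induction s using Finset.induction_on with
  | empty =>
    have h : (⨆ i ∈ (∅ : Finset ι), S i : Submodule k V) = ⊥ := by simp
    rw [h]
    simp
  | insert a s ha ih =>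
    rw [Finset.sum_insert ha, Finset.iSup_insert]
    exact le_trans (Submodule.finrank_add_le_finrank_add_finrank _ _) (Nat.add_le_add_left ih _)

private lemma sum_single_eq (k V : Type) [Field k] [AddCommGroup V] [Module k V] (m : ℕ)
    (y : Fin m → V) : ∑ a, (LinearMap.single k (fun _ : Fin m => V) a) (y a) = y := by
  classical
  funext i
  rw [Finset.sum_apply]
  rw [Finset.sum_eq_single i]
  · simp
  · intro b _ hb
    simp [Pi.single_apply, Ne.symm hb]
  · intro hi
    exact absurd (Finset.mem_univ i) hi

theorem exists_kill (k : Type) [Field k] (V : Type) [AddCommGroup V] [Module k V]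
    [Module.Finite k V] (m : ℕ) (T : Type) [Fintype T] (hT : Fintype.card T < m)
    (M : Fin m → T → Module.End k V) :
    ∃ v : Fin m → Module.End k V, (∀ t, ∑ a, v a * M a t = 0) ∧
      ∀ Λ : Fin m → Fin m → Module.End k V,
        (∀ x : Fin m → V, (∀ a, ∑ l, Λ a l (x l) = 0) → x = 0) →
        Module.finrank k V ≤ ∑ l, Module.finrank k (LinearMap.range (∑ a, v a * Λ a l)) := by
  classical
  let Φ : (T → V) →ₗ[k] (Fin m → V) :=
    LinearMap.pi (fun a => ∑ t, (M a t).comp (LinearMap.proj t))
  have hΦ : ∀ x a, Φ x a = ∑ t, M a t (x t) := by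
    intro x a
    simp [Φ, LinearMap.sum_apply]
  let W := LinearMap.range Φ
  have hW : Module.finrank k W ≤ Fintype.card T * Module.finrank k V := by
    have h1 := LinearMap.finrank_range_le Φ
    rw [Module.finrank_pi_fintype] at h1
    simpa using h1
  have hQ : Module.finrank k ((Fin m → V) ⧸ W) + Module.finrank k W
      = m * Module.finrank k V := by
    rw [Submodule.finrank_quotient_add_finrank, Module.finrank_pi_fintype]
    simp
  have hle : Module.finrank k V ≤ Module.finrank k ((Fin m → V) ⧸ W) := by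
    have h3 : (Fintype.card T + 1) * Module.finrank k V ≤ m * Module.finrank k V :=
      Nat.mul_le_mul_right _ hT
    rw [Nat.add_mul, Nat.one_mul] at h3
    omega
  obtain ⟨p, hp⟩ := exists_surj k V ((Fin m → V) ⧸ W) hle
  let v : Fin m → Module.End k V := fun a =>
    p.comp (W.mkQ.comp (LinearMap.single k (fun _ : Fin m => V) a))
  have hv : ∀ y : Fin m → V, ∑ a, v a (y a) = p (W.mkQ y) := by
    intro y
    have h1 : ∀ a, v a (y a) = p (W.mkQ ((LinearMap.single k (fun _ : Fin m => V) a) (y a))) :=
      fun a => rfl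
    simp only [h1]
    rw [← map_sum, ← map_sum, sum_single_eq]
  refine ⟨v, ?_, ?_⟩
  · intro t
    apply LinearMap.ext
    intro z
    rw [LinearMap.sum_apply, LinearMap.zero_apply]
    have h1 : ∀ a, (v a * M a t) z = v a (M a t z) := fun a => rfl
    simp only [h1]
    rw [hv (fun a => M a t z)]
    apply mkQ_eq_zero
    refine ⟨Pi.single t z, ?_⟩
    funext a
    rw [hΦ, Finset.sum_eq_single t]
    · simp
    · intro b _ hb
      simp [Pi.single_apply, hb]
    · intro hi
      exact absurd (Finset.mem_univ t) hi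
  · intro Λ hΛ
    let Ψ : (Fin m → V) →ₗ[k] (Fin m → V) :=
      LinearMap.pi (fun a => ∑ l, (Λ a l).comp (LinearMap.proj l))
    have hΨ : ∀ x a, Ψ x a = ∑ l, Λ a l (x l) := by
      intro x a
      simp [Ψ, LinearMap.sum_apply]
    have hinj : Function.Injective Ψ := by
      rw [← LinearMap.ker_eq_bot, LinearMap.ker_eq_bot']
      intro x hx
      apply hΛ
      intro a
      rw [← hΨ, hx]
      rfl
    have hsurj : Function.Surjective Ψ := LinearMap.injective_iff_surjective.mp hinj
    let u : Fin m → Module.End k V := fun l => ∑ a, v a * Λ a l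
    have hu : ∀ x : Fin m → V, ∑ l, u l (x l) = p (W.mkQ (Ψ x)) := by
      intro x
      rw [← hv]
      have h1 : ∀ l, u l (x l) = ∑ a, v a (Λ a l (x l)) := by
        intro l
        simp only [u, LinearMap.sum_apply]
        rfl
      simp only [h1, hΨ]
      rw [Finset.sum_comm]
      refine Finset.sum_congr rfl fun a _ => ?_
      rw [map_sum]
    have htop : (⨆ l ∈ (Finset.univ : Finset (Fin m)), LinearMap.range (u l) :
        Submodule k V) = ⊤ := by
      rw [eq_top_iff]
      intro z _
      obtain ⟨q, hq⟩ := hp z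
      obtain ⟨y, hy⟩ := W.mkQ_surjective q
      obtain ⟨x, hx⟩ := hsurj y
      rw [← hq, ← hy, ← hx, ← hu]
      refine Submodule.sum_mem _ fun l hl => ?_
      exact Submodule.mem_iSup_of_mem l (Submodule.mem_iSup_of_mem hl ⟨x l, rfl⟩)
    have hfin := finrank_iSup_le' k V (Fin m) Finset.univ (fun l => LinearMap.range (u l))
    rw [htop, finrank_top] at hfin
    exact hfin

end Pool.Agent.PDR
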