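import Mathlib
import Pool.Agent.PDR.RDefs
import Pool.Agent.PDR.FixV
import Pool.Agent.PDR.LinV

set_option autoImplicit false

/-!
# PDR-RkB: the rank bound

A matrix relation over the coefficient ring of a chain with an invertible augmentation needs at least `m`
columns: the killing endomorphisms of LinV at every stage of the chain give a sequence of normalised rank at
least one.
-/

namespace Pool.Agent.PDR

open MonoidAlgebra Pool.Agent.PDC

private theorem rkb_redM_of (p : ℕ) [Fact p.Prime] {K : Type} [Group K] (N : Subgroup K) [N.Normal]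
    (g : K) : redM p N (of ℤ K g) = of (ZMod p) (K ⧸ N) (QuotientGroup.mk' N g) := by
  simp [redM, of_apply]

theorem aug_redM (p : ℕ) [Fact p.Prime] {K : Type} [Group K] (N : Subgroup K) [N.Normal]
    (a : MonoidAlgebra ℤ K) :
    augK (ZMod p) (K ⧸ N) (redM p N a) = ((aug a : ℤ) : ZMod p) := by
  refine zg_hom_ext (F := ((augK (ZMod p) (K ⧸ N)).comp (redM p N)).toAddMonoidHom)
    (F' := ((Int.castRingHom (ZMod p)).comp aug).toAddMonoidHom) ?_ a
  intro h
  change augK (ZMod p) (K ⧸ N) (redM p N (of ℤ K h)) = ((aug (of ℤ K h) : ℤ) : ZMod p)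
  rw [rkb_redM_of, augK_of, aug_of, Int.cast_one]

theorem rank_bound {p : ℕ} [Fact p.Prime] {K : Type} [Group K] (C : PChain p K) (m : ℕ)
    (T : Type) [Fintype T] (M : Fin m → T → MonoidAlgebra ℤ K)
    (Λ : Fin m → Fin m → MonoidAlgebra ℤ K)
    (hT : ∀ d : Fin m → DR (ZMod p) C.V, (∀ t, ∑ a, d a * C.fD (M a t) = 0) →
      ∀ l, ∑ a, d a * C.fD (Λ a l) = 0)
    (hΛ : IsUnit (Matrix.of fun a l => ((aug (Λ a l) : ℤ) : ZMod p)).det) :
    m ≤ Fintype.card T := by
  by_contra hcon
  have hlt : Fintype.card T < m := not_le.1 hcon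
  choose v hv0 hv1 using fun i => exists_kill (ZMod p) (C.V i) m T hlt (fun a t => C.f i (M a t))
  have key : ∀ Y : Fin m → MonoidAlgebra ℤ K,
      ∑ a, (Ideal.Quotient.mk (JI (ZMod p) C.V) (fun i => v i a)) * C.fD (Y a) =
        Ideal.Quotient.mk (JI (ZMod p) C.V) (fun i => ∑ a, v i a * C.f i (Y a)) := by
    intro Y
    have h1 : (fun i => ∑ a, v i a * C.f i (Y a)) =
        ∑ a, ((fun i => v i a) * (fun i => C.f i (Y a)) : ∀ i, Module.End (ZMod p) (C.V i)) := by
      funext i
      rw [Finset.sum_apply]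
      rfl
    rw [h1, map_sum]
    refine Finset.sum_congr rfl fun a _ => ?_
    rw [map_mul]
    rfl
  have h0 : ∀ t, ∑ a, (Ideal.Quotient.mk (JI (ZMod p) C.V) (fun i => v i a)) * C.fD (M a t) = 0 := by
    intro t
    rw [key]
    have h1 : (fun i => ∑ a, v i a * C.f i (M a t)) = (0 : ∀ i, Module.End (ZMod p) (C.V i)) := by
      funext i
      exact hv0 i t
    rw [h1, map_zero]
  have h2 := hT _ h0
  have h3 : ∀ l, Filter.Tendsto (fun i => nrk (ZMod p) C.V i (∑ a, v i a * C.f i (Λ a l)))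
      Filter.atTop (nhds 0) := by
    intro l
    have h4 := h2 l
    rw [key, Ideal.Quotient.eq_zero_iff_mem, mem_JI] at h4
    exact h4
  have h5 : Filter.Tendsto (fun i => ∑ l, nrk (ZMod p) C.V i (∑ a, v i a * C.f i (Λ a l)))
      Filter.atTop (nhds 0) := by
    have h6 := tendsto_finsetSum Finset.univ (fun l _ => h3 l)
    rwa [Finset.sum_const_zero] at h6
  have h7 : ∀ i, 1 ≤ ∑ l, nrk (ZMod p) C.V i (∑ a, v i a * C.f i (Λ a l)) := by
    intro i
    have hfin : Finite (K ⧸ C.N i) := Subgroup.finite_quotient_of_finiteIndex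
    have hF : ∀ g : K ⧸ C.N i, ∃ e : ℕ, g ^ (p ^ e) = 1 := by
      intro g
      obtain ⟨h, rfl⟩ := QuotientGroup.mk'_surjective (C.N i) g
      obtain ⟨e, he⟩ := C.pow i h
      refine ⟨e, ?_⟩
      rw [← map_pow]
      exact (QuotientGroup.eq_one_iff _).2 he
    have hinj : ∀ x : Fin m → C.V i, (∀ a, ∑ l, (C.f i (Λ a l)) (x l) = 0) → x = 0 := by
      intro x hx
      refine mulMat_injective p (K ⧸ C.N i) hF m (fun a l => redM p (C.N i) (Λ a l)) ?_ x ?_
      · simp only [aug_redM]
        exact hΛ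
      · intro a
        exact hx a
    have h8 := hv1 i (fun a l => C.f i (Λ a l)) hinj
    have hpos : 0 < Module.finrank (ZMod p) (C.V i) := Module.finrank_pos
    have hpos' : (0 : ℝ) < (Module.finrank (ZMod p) (C.V i) : ℝ) := by exact_mod_cast hpos
    unfold nrk
    rw [← Finset.sum_div, le_div_iff₀ hpos', one_mul]
    exact_mod_cast h8
  have h9 := ge_of_tendsto' h5 h7
  norm_num at h9

end Pool.Agent.PDR
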