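import Mathlib
import Pool.Agent.PDC.Basic

set_option autoImplicit false

/-!
# PDR-NakF: Nakayama's lemma for finite p-groups

The group of additive maps from `U` to `ZMod p` is a finite `p`-group on which a finite `p`-group
acts; a fixed point kills the augmentation ideal, so the group is zero and `U = p U`.
-/

namespace Pool.Agent.PDR

open MonoidAlgebra Pool.Agent.PDC

private noncomputable def act {K : Type} [Group K] {U : Type} [AddCommGroup U] [Module (MonoidAlgebra ℤ K) U]
    (h : K) : U →+ U :=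
  AddMonoidHom.mk' (fun u => of ℤ K h • u) (fun a b => smul_add _ a b)

private theorem act_apply {K : Type} [Group K] {U : Type} [AddCommGroup U]
    [Module (MonoidAlgebra ℤ K) U] (h : K) (u : U) : act h u = of ℤ K h • u := rfl

private theorem act_mul {K : Type} [Group K] {U : Type} [AddCommGroup U]
    [Module (MonoidAlgebra ℤ K) U] (g h : K) (u : U) : act (g * h) u = act g (act h u) := by
  rw [act_apply, act_apply, act_apply, map_mul, mul_smul]

private theorem act_one {K : Type} [Group K] {U : Type} [AddCommGroup U]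
    [Module (MonoidAlgebra ℤ K) U] (u : U) : act (1 : K) u = u := by
  rw [act_apply, map_one, one_smul]

private theorem dual_zero (p : ℕ) [Fact p.Prime] (K : Type) [Group K] (U : Type) [AddCommGroup U]
    [Module (MonoidAlgebra ℤ K) U] [Finite U]
    (hact : ∀ h : K, ∃ e : ℕ, ∀ u : U, of ℤ K (h ^ (p ^ e)) • u = u)
    (hU : ∀ u : U, u ∈ AddSubgroup.closure
      {z : U | ∃ (a : MonoidAlgebra ℤ K) (y : U), (p : ℤ) ∣ aug a ∧ z = a • y})
    (ℓ : U →+ ZMod p) : ℓ = 0 := by
  have hp : p.Prime := Fact.out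
  have : NeZero p := ⟨hp.ne_zero⟩
  by_contra hne
  have hfin : Finite (U →+ ZMod p) :=
    Finite.of_injective (fun f : U →+ ZMod p => (f : U → ZMod p)) DFunLike.coe_injective
  let _ : MulAction K (U →+ ZMod p) :=
    { smul := fun h f => f.comp (act h⁻¹)
      one_smul := fun f => by
        ext u
        change f (act (1 : K)⁻¹ u) = f u
        rw [inv_one, act_one]
      mul_smul := fun g h f => by
        ext u
        change f (act (g * h)⁻¹ u) = f (act h⁻¹ (act g⁻¹ u))
        rw [mul_inv_rev, act_mul] }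
  have hsm : ∀ (h : K) (f : U →+ ZMod p) (u : U), (h • f) u = f (act h⁻¹ u) :=
    fun _ _ _ => rfl
  have hP : IsPGroup p (MulAction.toPermHom K (U →+ ZMod p)).range := by
    rintro ⟨_, h, rfl⟩
    obtain ⟨e, he⟩ := hact h
    refine ⟨e, Subtype.ext ?_⟩
    change (MulAction.toPermHom K (U →+ ZMod p) h) ^ (p ^ e) = 1
    rw [← map_pow]
    ext f u
    change (h ^ (p ^ e) • f) u = f u
    rw [hsm]
    congr 1
    have h1 : act (h ^ (p ^ e)) u = u := he u
    calc act (h ^ (p ^ e))⁻¹ u = act (h ^ (p ^ e))⁻¹ (act (h ^ (p ^ e)) u) := by rw [h1]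
      _ = act ((h ^ (p ^ e))⁻¹ * h ^ (p ^ e)) u := (act_mul _ _ u).symm
      _ = u := by rw [inv_mul_cancel, act_one]
  have hcard : p ∣ Nat.card (U →+ ZMod p) := by
    have h1 : addOrderOf ℓ = p := by
      refine addOrderOf_eq_prime ?_ hne
      ext u
      rw [AddMonoidHom.nsmul_apply, nsmul_eq_mul, CharP.cast_eq_zero, zero_mul]
      rfl
    have h2 := addOrderOf_dvd_natCard ℓ
    rwa [h1] at h2
  have h0 : (0 : U →+ ZMod p) ∈
      MulAction.fixedPoints (MulAction.toPermHom K (U →+ ZMod p)).range (U →+ ZMod p) := by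
    rintro ⟨_, h, rfl⟩
    change h • (0 : U →+ ZMod p) = 0
    ext u
    rfl
  obtain ⟨b, hb, hb0⟩ := hP.exists_fixed_point_of_prime_dvd_card_of_fixed_point
    (U →+ ZMod p) hcard h0
  have hfix : ∀ (h : K) (u : U), b (of ℤ K h • u) = b u := by
    intro h u
    have h1 : h⁻¹ • b = b := hb ⟨_, h⁻¹, rfl⟩
    have h2 := hsm h⁻¹ b u
    rw [h1, inv_inv] at h2
    exact h2.symm
  have haug : ∀ (a : MonoidAlgebra ℤ K) (u : U), b (a • u) = ((aug a : ℤ) : ZMod p) * b u := by
    intro a u
    induction a using zg_induction with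
    | h0 => simp
    | hadd x y hx hy => rw [add_smul, map_add, hx, hy, map_add, Int.cast_add, add_mul]
    | hneg x hx => rw [neg_smul, map_neg, hx, map_neg, Int.cast_neg, neg_mul]
    | hof g => rw [hfix, aug_of, Int.cast_one, one_mul]
  apply hb0
  symm
  ext u
  have hu := hU u
  change b u = 0
  induction hu using AddSubgroup.closure_induction with
  | mem z hz =>
    obtain ⟨a, y, ha, rfl⟩ := hz
    rw [haug, (ZMod.intCast_zmod_eq_zero_iff_dvd (aug a) p).2 ha, zero_mul]
  | zero => exact map_zero b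
  | add x y _ _ hx hy => rw [map_add, hx, hy, add_zero]
  | neg x _ hx => rw [map_neg, hx, neg_zero]

private theorem exists_hom_mod (p : ℕ) [Fact p.Prime] (Q : Type) [AddCommGroup Q]
    [Module (ZMod p) Q] (x : Q) (hx : x ≠ 0) : ∃ f : Q →+ ZMod p, f x ≠ 0 := by
  obtain ⟨f, hf⟩ : ∃ f : Q →ₗ[ZMod p] ZMod p, f x ≠ 0 :=
    Module.Projective.exists_dual_ne_zero (ZMod p) hx
  exact ⟨f.toAddMonoidHom, hf⟩

private theorem exists_hom (p : ℕ) [Fact p.Prime] (Q : Type) [AddCommGroup Q]
    (h : ∀ x : Q, p • x = 0) (x : Q) (hx : x ≠ 0) : ∃ f : Q →+ ZMod p, f x ≠ 0 :=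
  @exists_hom_mod p _ Q _ (AddCommGroup.zmodModule h) x hx

theorem nak_finite (p : ℕ) [Fact p.Prime] (K : Type) [Group K] (U : Type) [AddCommGroup U]
    [Module (MonoidAlgebra ℤ K) U] [Finite U]
    (hact : ∀ h : K, ∃ e : ℕ, ∀ u : U, of ℤ K (h ^ (p ^ e)) • u = u)
    (s : ℕ) (hs : ∀ u : U, (p ^ s) • u = 0)
    (hU : ∀ u : U, u ∈ AddSubgroup.closure
      {z : U | ∃ (a : MonoidAlgebra ℤ K) (y : U), (p : ℤ) ∣ aug a ∧ z = a • y}) (u : U) :
    u = 0 := by
  have hdiv : ∀ u : U, ∃ v : U, u = p • v := by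
    intro u
    by_contra hcon
    push Not at hcon
    let P : AddSubgroup U := (nsmulAddMonoidHom (α := U) p).range
    have hPm : ∀ x : U ⧸ P, p • x = 0 := by
      intro x
      obtain ⟨y, rfl⟩ := QuotientAddGroup.mk_surjective x
      rw [← QuotientAddGroup.mk_nsmul, QuotientAddGroup.eq_zero_iff]
      exact ⟨y, rfl⟩
    have hu : (QuotientAddGroup.mk u : U ⧸ P) ≠ 0 := by
      rw [ne_eq, QuotientAddGroup.eq_zero_iff]
      rintro ⟨v, hv⟩
      exact hcon v hv.symm
    obtain ⟨f, hf⟩ := exists_hom p (U ⧸ P) hPm _ hu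
    have h1 := dual_zero p K U hact hU (f.comp (QuotientAddGroup.mk' P))
    exact hf (DFunLike.congr_fun h1 u)
  have hpow : ∀ n : ℕ, ∀ u : U, ∃ v : U, u = (p ^ n) • v := by
    intro n
    induction n with
    | zero => exact fun u => ⟨u, by rw [pow_zero, one_smul]⟩
    | succ n ih =>
      intro u
      obtain ⟨v, hv⟩ := ih u
      obtain ⟨w, hw⟩ := hdiv v
      exact ⟨w, by rw [hv, hw, ← mul_smul, pow_succ]⟩
  obtain ⟨v, hv⟩ := hpow s u
  rw [hv, hs]

end Pool.Agent.PDR
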