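import Mathlib
import Pool.Agent.PDR.RDefs
import Pool.Agent.PDR.NakF

set_option autoImplicit false

/-!
# PDR-StepF: a functional vanishing on L vanishes if P = L + (p, I) P

PLAN.  Suppose c x ≠ 0 for some x, r := c x, g0 in its support, n0 = r.coeff g0 ≠ 0.  Choose s with ¬ p^s ∣ n0
(e.g. s = n0.natAbs: p^s > |n0|; `Int.natAbs_dvd`...).  Choose i such that g0⁻¹ * g ∉ C.N i for all g ≠ g0 in the support
of r (finite set; C.sep and antitone).  W := MonoidAlgebra (ZMod (p^s)) (K ⧸ C.N i),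
R : MonoidAlgebra ℤ K →+* W := (mapRingHom _ (Int.castRingHom _)).comp (mapDomainRingHom ℤ (QuotientGroup.mk' _)),
W is a ℤK-module by `Module.compHom W R` (a • w = R a * w); cbar : P →ₗ[ℤK] W, cbar z = R (c z)
(R (a * r) = R a * R r).  U := LinearMap.range cbar, finite (W is finite: MonoidAlgebra over a finite ring and a finite
group; NeZero (p^s)).  Apply `nak_finite` to U:
 hact: for h take e from C.pow i h: R (of (h^(p^e))) = 1.
 hs: p^s • w = 0 in W.
 hU: u = cbar z; z = l + y with l ∈ L, y in the closure (hL); cbar l = 0; cbar maps the closure into the closure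
   (`AddSubgroup.closure_induction`, cbar (a • y) = a • cbar y).
So cbar x = 0, but the coefficient of R r at the class of g0 is n0 mod p^s ≠ 0
(`coeff_mapRingHom`, mapDomain: only g0 maps to its class among the support).  Contradiction.
-/

namespace Pool.Agent.PDR

open MonoidAlgebra Pool.Agent.PDC

private theorem sf_map {p : ℕ} [Fact p.Prime] {K : Type} [Group K] (P : Type)
    [AddCommGroup P] [Module (MonoidAlgebra ℤ K) P] (L : Submodule (MonoidAlgebra ℤ K) P)
    (hL : ∀ x : P, ∃ l ∈ L, x - l ∈ AddSubgroup.closure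
      {z : P | ∃ (a : MonoidAlgebra ℤ K) (y : P), (p : ℤ) ∣ aug a ∧ z = a • y})
    (W : Type) [Ring W] [Finite W] (R : MonoidAlgebra ℤ K →+* W) (s : ℕ)
    (hs : ∀ w : W, (p ^ s) • w = 0) (hact : ∀ h : K, ∃ e : ℕ, R (of ℤ K (h ^ (p ^ e))) = 1)
    (f : P →+ W) (hf : ∀ a z, f (a • z) = R a * f z) (hfL : ∀ l ∈ L, f l = 0) (x : P) :
    f x = 0 := by
  let _ : Module (MonoidAlgebra ℤ K) W := Module.compHom W R
  let F : P →ₗ[MonoidAlgebra ℤ K] W := { f with map_smul' := fun a z => hf a z }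
  have hF : ∀ z, F z = f z := fun z => rfl
  have hcl : ∀ y ∈ AddSubgroup.closure
      {z : P | ∃ (a : MonoidAlgebra ℤ K) (y : P), (p : ℤ) ∣ aug a ∧ z = a • y},
      F.rangeRestrict y ∈ AddSubgroup.closure {z : LinearMap.range F |
        ∃ (a : MonoidAlgebra ℤ K) (y : LinearMap.range F), (p : ℤ) ∣ aug a ∧ z = a • y} := by
    intro y hy
    have h1 : AddSubgroup.closure
        {z : P | ∃ (a : MonoidAlgebra ℤ K) (y : P), (p : ℤ) ∣ aug a ∧ z = a • y} ≤
        (AddSubgroup.closure {z : LinearMap.range F |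
          ∃ (a : MonoidAlgebra ℤ K) (y : LinearMap.range F), (p : ℤ) ∣ aug a ∧ z = a • y}).comap
            F.rangeRestrict.toAddMonoidHom := by
      rw [AddSubgroup.closure_le]
      rintro z ⟨a, y, ha, rfl⟩
      refine AddSubgroup.subset_closure ⟨a, F.rangeRestrict y, ha, ?_⟩
      exact F.rangeRestrict.map_smul a y
    exact h1 hy
  have key := nak_finite p K (LinearMap.range F) (fun h => by
    obtain ⟨e, he⟩ := hact h
    refine ⟨e, fun u => Subtype.ext ?_⟩
    change R (of ℤ K (h ^ (p ^ e))) * (u : W) = u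
    rw [he, one_mul]) s (fun u => Subtype.ext (hs u)) (fun u => by
      obtain ⟨z, hz⟩ := F.surjective_rangeRestrict u
      obtain ⟨l, hl, hzl⟩ := hL z
      have h2 := hcl _ hzl
      rw [map_sub] at h2
      have h3 : F.rangeRestrict l = 0 := Subtype.ext (hfL l hl)
      rw [h3, sub_zero, hz] at h2
      exact h2) (F.rangeRestrict x)
  exact congrArg Subtype.val key

private theorem sf_index {p : ℕ} {K : Type} [Group K] (C : PChain p K) (S : Finset K) :
    ∃ i, ∀ g ∈ S, g ≠ 1 → g ∉ C.N i := by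
  classical
  have hanti : Antitone C.N := antitone_nat_of_succ_le C.anti
  induction S using Finset.induction_on with
  | empty => exact ⟨0, fun g hg => absurd hg (Finset.notMem_empty g)⟩
  | insert a S _ ih =>
    obtain ⟨i, hi⟩ := ih
    by_cases ha : a = 1
    · refine ⟨i, fun g hg h1 => ?_⟩
      rcases Finset.mem_insert.1 hg with rfl | hg
      · exact absurd ha h1
      · exact hi g hg h1
    · obtain ⟨j, hj⟩ := C.sep a ha
      refine ⟨max i j, fun g hg h1 h2 => ?_⟩
      rcases Finset.mem_insert.1 hg with rfl | hg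
      · exact hj (hanti (le_max_right i j) h2)
      · exact hi g hg h1 (hanti (le_max_left i j) h2)

theorem coord_zero {p : ℕ} [Fact p.Prime] {K : Type} [Group K] (C : PChain p K) (P : Type)
    [AddCommGroup P] [Module (MonoidAlgebra ℤ K) P] (L : Submodule (MonoidAlgebra ℤ K) P)
    (hL : ∀ x : P, ∃ l ∈ L, x - l ∈ AddSubgroup.closure
      {z : P | ∃ (a : MonoidAlgebra ℤ K) (y : P), (p : ℤ) ∣ aug a ∧ z = a • y})
    (c : P →ₗ[MonoidAlgebra ℤ K] MonoidAlgebra ℤ K) (hc : ∀ l ∈ L, c l = 0) (x : P) :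
    c x = 0 := by
  classical
  have hp : p.Prime := Fact.out
  by_contra hx
  obtain ⟨g0, hg0⟩ : ∃ g, (c x).coeff g ≠ 0 := by
    by_contra h
    push Not at h
    exact hx (MonoidAlgebra.ext (Finsupp.ext fun g => by rw [h g]; rfl))
  obtain ⟨s, hs⟩ : ∃ s : ℕ, ¬ ((p ^ s : ℕ) : ℤ) ∣ (c x).coeff g0 := by
    refine ⟨((c x).coeff g0).natAbs, fun h => ?_⟩
    have h1 : p ^ ((c x).coeff g0).natAbs ∣ ((c x).coeff g0).natAbs := Int.natCast_dvd.1 h
    have h2 := Nat.le_of_dvd (Int.natAbs_pos.2 hg0) h1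
    exact absurd (Nat.lt_pow_self hp.one_lt (n := ((c x).coeff g0).natAbs)) (not_lt.2 h2)
  obtain ⟨i, hi⟩ := sf_index C ((c x).coeff.support.image fun g => g0⁻¹ * g)
  have : NeZero (p ^ s) := ⟨pow_ne_zero _ hp.ne_zero⟩
  have : Finite (K ⧸ C.N i) := Subgroup.finite_quotient_of_finiteIndex
  have : Finite (MonoidAlgebra (ZMod (p ^ s)) (K ⧸ C.N i)) := Module.finite_of_finite (ZMod (p ^ s))
  let R : MonoidAlgebra ℤ K →+* MonoidAlgebra (ZMod (p ^ s)) (K ⧸ C.N i) :=
    (MonoidAlgebra.mapRingHom (K ⧸ C.N i) (Int.castRingHom (ZMod (p ^ s)))).comp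
      (MonoidAlgebra.mapDomainRingHom ℤ (QuotientGroup.mk' (C.N i)))
  have hRof : ∀ g : K, R (of ℤ K g) = single (QuotientGroup.mk' (C.N i) g) 1 := by
    intro g
    change MonoidAlgebra.mapRingHom (K ⧸ C.N i) (Int.castRingHom (ZMod (p ^ s)))
      (MonoidAlgebra.mapDomain (QuotientGroup.mk' (C.N i)) (single g 1)) = _
    rw [mapDomain_single, mapRingHom_single, map_one]
  have key := sf_map P L hL (MonoidAlgebra (ZMod (p ^ s)) (K ⧸ C.N i)) R s (fun w => by
      rw [← Nat.cast_smul_eq_nsmul (ZMod (p ^ s)), ZMod.natCast_self, zero_smul])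
    (fun h => by
      obtain ⟨e, he⟩ := C.pow i h
      refine ⟨e, ?_⟩
      rw [hRof]
      have h1 : QuotientGroup.mk' (C.N i) (h ^ (p ^ e)) = 1 :=
        (QuotientGroup.eq_one_iff _).2 he
      rw [h1]
      rfl)
    (R.toAddMonoidHom.comp c.toAddMonoidHom) (fun a z => by
      change R (c (a • z)) = R a * R (c z)
      rw [c.map_smul, smul_eq_mul, map_mul]) (fun l hl => by
      change R (c l) = 0
      rw [hc l hl, map_zero]) x
  have hkey : R (c x) = 0 := key
  have h1 : (R (c x)).coeff (QuotientGroup.mk' (C.N i) g0) = (((c x).coeff g0 : ℤ) : ZMod (p ^ s)) := by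
    change (MonoidAlgebra.mapRingHom (K ⧸ C.N i) (Int.castRingHom (ZMod (p ^ s)))
      (MonoidAlgebra.mapDomain (QuotientGroup.mk' (C.N i)) (c x))).coeff _ = _
    rw [coeff_mapRingHom]
    have h2 : (MonoidAlgebra.mapDomain (QuotientGroup.mk' (C.N i)) (c x)).coeff
        (QuotientGroup.mk' (C.N i) g0) = (c x).coeff g0 := by
      change (Finsupp.mapDomain (QuotientGroup.mk' (C.N i)) (c x).coeff)
        (QuotientGroup.mk' (C.N i) g0) = _
      rw [Finsupp.mapDomain, Finsupp.sum_apply, Finsupp.sum, Finset.sum_eq_single g0]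
      · rw [Finsupp.single_eq_same]
      · intro g hg hne
        rw [Finsupp.single_apply, if_neg]
        intro h3
        have h4 : g0⁻¹ * g ∈ C.N i := by
          rw [← QuotientGroup.eq_one_iff, QuotientGroup.mk_mul, QuotientGroup.mk_inv]
          have h5 : (g : K ⧸ C.N i) = (g0 : K ⧸ C.N i) := h3
          rw [h5, inv_mul_cancel]
        refine hi _ (Finset.mem_image_of_mem _ hg) ?_ h4
        intro h6
        exact hne (inv_mul_eq_one.1 h6).symm
      · intro h3
        rw [Finsupp.notMem_support_iff.1 h3, Finsupp.single_zero]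
        rfl
    rw [h2]
    rfl
  rw [hkey] at h1
  have h2 : (((c x).coeff g0 : ℤ) : ZMod (p ^ s)) = 0 := h1.symm
  exact hs ((ZMod.intCast_zmod_eq_zero_iff_dvd _ _).1 h2)

end Pool.Agent.PDR
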