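import Mathlib
import Pool.Agent.PDC.Basic

set_option autoImplicit false

/-!
# PDR-TorA: annihilators of g - 1 and of the norm in a group ring

PLAN (ℓ = orderOf g > 0).  Coefficients: (of g * r).coeff x = r.coeff (g⁻¹ * x).
(1) (of g - 1) * r = 0: r.coeff (g⁻¹ * x) = r.coeff x for all x, so r is constant on the right cosets C x,
C = Subgroup.zpowers g.  Let y be r restricted to the representatives T = {x | tr C x = x} (`tr` of PDC.Basic;
y = the element with coefficients r.coeff x for x ∈ T, 0 otherwise, e.g. `MonoidAlgebra.ofCoeff`/Finsupp.filter).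
(N * y).coeff x = ∑_{i<ℓ} y.coeff (g^(-i) x); exactly one i < ℓ has g^(-i) x ∈ T (x = g^i * tr C x, i unique mod ℓ),
the value is r.coeff (tr C x) = r.coeff x.
(2) N * r = 0: ∑_{i<ℓ} r.coeff (g^(-i) x) = 0.  Put y.coeff (g^j t) = - ∑_{i ≤ j} r.coeff (g^i t) for t ∈ T, 0 ≤ j < ℓ.
Then ((of g - 1) * y).coeff (g^j t) = y(g^(j-1) t) - y(g^j t) = r(g^j t) for j ≥ 1, and for j = 0:
y(g^(ℓ-1) t) - y(t) = 0 + r(t).
Alternative: r = ∑_{t ∈ Y} inc C (resH C (r * of t⁻¹)) * of t (`expand` with Λ = id, ZG as a ZC-module via inc), which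
reduces everything to the group ring of the finite cyclic group C: there (g-1) a = 0 ⇒ a = a.coeff 1 • N, and
N * a = aug(a) • N = 0 ⇒ aug a = 0 ⇒ a = ∑_h a_h (h - 1) with g^j - 1 = (g - 1) * ∑_{i<j} g^i (`Commute.mul_geom_sum`).
-/

namespace Pool.Agent.PDR

open MonoidAlgebra Pool.Agent.PDC

private theorem tr_set {G : Type} [Group G] (g : G) (hℓ : 0 < orderOf g) :
    ∃ T : Set G, ∀ x, ∃ i < orderOf g, ∀ j < orderOf g, (g ^ j)⁻¹ * x ∈ T ↔ j = i := by
  classical
  obtain ⟨T, hT, -⟩ := Subgroup.exists_isComplement_right (Subgroup.zpowers g) 1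
  refine ⟨T, fun x => ?_⟩
  obtain ⟨⟨c, t⟩, hct, huniq⟩ := hT.existsUnique x
  have hfin : IsOfFinOrder g := orderOf_pos_iff.1 hℓ
  have hc := (hfin.mem_zpowers_iff_mem_range_orderOf).1 c.2
  obtain ⟨i, hi, hic⟩ := Finset.mem_image.1 hc
  refine ⟨i, Finset.mem_range.1 hi, fun j hj => ?_⟩
  constructor
  · intro h
    have h1 := huniq (⟨g ^ j, Subgroup.npow_mem_zpowers g j⟩, ⟨(g ^ j)⁻¹ * x, h⟩) (by simp)
    have h2 : g ^ j = (c : G) := congrArg (fun z => ((z.1 : Subgroup.zpowers g) : G)) h1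
    rw [← hic] at h2
    exact pow_injOn_Iio_orderOf hj (Finset.mem_range.1 hi) h2
  · rintro rfl
    have h3 : (c : G) * t = x := hct
    rw [hic, ← h3, inv_mul_cancel_left]
    exact t.2

open Classical in
/-- the projection to the representatives -/
private noncomputable def PT {G : Type} [Group G] (T : Set G) : MonoidAlgebra ℤ G →+ MonoidAlgebra ℤ G :=
  extZ (fun x => if x ∈ T then of ℤ G x else 0)

open Classical in
private theorem PT_of {G : Type} [Group G] (T : Set G) (x : G) :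
    PT T (of ℤ G x) = if x ∈ T then of ℤ G x else 0 := by
  unfold PT
  rw [extZ_of]

private theorem PT_one {G : Type} [Group G] {g : G} {T : Set G}
    (hT : ∀ x, ∃ i < orderOf g, ∀ j < orderOf g, (g ^ j)⁻¹ * x ∈ T ↔ j = i) (r : MonoidAlgebra ℤ G) :
    ∑ i ∈ Finset.range (orderOf g), of ℤ G (g ^ i) * PT T (of ℤ G (g ^ i)⁻¹ * r) = r := by
  classical
  induction r using zg_induction with
  | h0 => simp
  | hadd x y hx hy =>
    simp only [mul_add, map_add, Finset.sum_add_distrib] at hx hy ⊢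
    rw [hx, hy]
  | hneg x hx =>
    simp only [mul_neg, map_neg, Finset.sum_neg_distrib] at hx ⊢
    rw [hx]
  | hof x =>
    obtain ⟨i, hi, h⟩ := hT x
    rw [Finset.sum_eq_single i]
    · rw [← map_mul, PT_of, if_pos ((h i hi).2 rfl), ← map_mul, mul_inv_cancel_left]
    · intro j hj hne
      rw [← map_mul, PT_of, if_neg (fun hm => hne ((h j (Finset.mem_range.1 hj)).1 hm)), mul_zero]
    · intro h0
      exact absurd (Finset.mem_range.2 hi) h0

private theorem PT_two {G : Type} [Group G] {g : G} (hℓ : 0 < orderOf g) {T : Set G}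
    (hT : ∀ x, ∃ i < orderOf g, ∀ j < orderOf g, (g ^ j)⁻¹ * x ∈ T ↔ j = i) (u : MonoidAlgebra ℤ G) :
    PT T ((∑ i ∈ Finset.range (orderOf g), of ℤ G (g ^ i)) * PT T u) = PT T u := by
  classical
  induction u using zg_induction with
  | h0 => simp
  | hadd x y hx hy =>
    rw [map_add, mul_add, map_add, hx, hy]
  | hneg x hx =>
    rw [map_neg, mul_neg, map_neg, hx]
  | hof x =>
    rw [PT_of]
    split_ifs with hx
    · rw [Finset.sum_mul, map_sum, Finset.sum_eq_single 0]
      · rw [pow_zero, ← map_mul, one_mul, PT_of, if_pos hx]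
      · intro j hj hne
        rw [← map_mul, PT_of, if_neg]
        intro hm
        obtain ⟨i, hi, h⟩ := hT (g ^ j * x)
        have h1 : j = i := (h j (Finset.mem_range.1 hj)).1 (by rw [inv_mul_cancel_left]; exact hx)
        have h2 : 0 = i := (h 0 hℓ).1 (by rw [pow_zero, inv_one, one_mul]; exact hm)
        omega
      · intro h0
        exact absurd (Finset.mem_range.2 hℓ) h0
    · rw [mul_zero, map_zero]

theorem tor_ring_a {G : Type} [Group G] (g : G) (hℓ : 0 < orderOf g) (r : MonoidAlgebra ℤ G)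
    (h : (of ℤ G g - 1) * r = 0) :
    ∃ y, r = (∑ i ∈ Finset.range (orderOf g), of ℤ G (g ^ i)) * y := by
  obtain ⟨T, hT⟩ := tr_set g hℓ
  have h1 : of ℤ G g * r = r := by
    rw [sub_mul, one_mul, sub_eq_zero] at h
    exact h
  have h2 : ∀ i : ℕ, of ℤ G (g ^ i) * r = r := by
    intro i
    induction i with
    | zero => rw [pow_zero, map_one, one_mul]
    | succ i ih => rw [pow_succ, map_mul, mul_assoc, h1, ih]
  have h3 : ∀ i : ℕ, of ℤ G (g ^ i)⁻¹ * r = r := by
    intro i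
    conv_lhs => rw [← h2 i]
    rw [← mul_assoc, ← map_mul, inv_mul_cancel, map_one, one_mul]
  refine ⟨PT T r, ?_⟩
  have h4 := PT_one hT r
  simp only [h3] at h4
  rw [Finset.sum_mul]
  exact h4.symm

theorem tor_ring_b {G : Type} [Group G] (g : G) (hℓ : 0 < orderOf g) (r : MonoidAlgebra ℤ G)
    (h : (∑ i ∈ Finset.range (orderOf g), of ℤ G (g ^ i)) * r = 0) :
    ∃ y, r = (of ℤ G g - 1) * y := by
  obtain ⟨T, hT⟩ := tr_set g hℓ
  obtain ⟨N, hN⟩ : ∃ N : MonoidAlgebra ℤ G, N = ∑ i ∈ Finset.range (orderOf g), of ℤ G (g ^ i) := ⟨_, rfl⟩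
  rw [← hN] at h
  have hN2 : ∀ u, PT T (N * PT T u) = PT T u := fun u => by rw [hN]; exact PT_two hℓ hT u
  have hNx : N * of ℤ G g = N := by
    have h1 : N * (of ℤ G g - 1) = 0 := by
      have h2 : N = ∑ i ∈ Finset.range (orderOf g), of ℤ G g ^ i := by
        rw [hN]
        exact Finset.sum_congr rfl fun i _ => map_pow _ _ _
      rw [h2, geom_sum_mul, ← map_pow, pow_orderOf_eq_one, map_one, sub_self]
    rw [mul_sub, mul_one, sub_eq_zero] at h1
    exact h1
  have hNi : ∀ i : ℕ, N * of ℤ G (g ^ i) = N := by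
    intro i
    induction i with
    | zero => rw [pow_zero, map_one, mul_one]
    | succ i ih => rw [pow_succ, map_mul, ← mul_assoc, ih, hNx]
  obtain ⟨s, hs⟩ : ∃ s : ℕ → MonoidAlgebra ℤ G, s = fun i => PT T (of ℤ G (g ^ i)⁻¹ * r) := ⟨_, rfl⟩
  have h4 : ∑ i ∈ Finset.range (orderOf g), of ℤ G (g ^ i) * s i = r := by
    rw [hs]
    exact PT_one hT r
  have h5 : N * ∑ i ∈ Finset.range (orderOf g), s i = 0 := by
    have h6 : N * r = N * ∑ i ∈ Finset.range (orderOf g), s i := by
      conv_lhs => rw [← h4]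
      rw [Finset.mul_sum, Finset.mul_sum]
      exact Finset.sum_congr rfl fun i _ => by rw [← mul_assoc, hNi]
    rw [← h6, h]
  have h7 : ∑ i ∈ Finset.range (orderOf g), s i = 0 := by
    have h8 : PT T (N * ∑ i ∈ Finset.range (orderOf g), s i) = ∑ i ∈ Finset.range (orderOf g), s i := by
      rw [Finset.mul_sum, map_sum]
      refine Finset.sum_congr rfl fun i _ => ?_
      rw [hs]
      exact hN2 _
    rw [← h8, h5, map_zero]
  refine ⟨∑ i ∈ Finset.range (orderOf g), (∑ k ∈ Finset.range i, of ℤ G g ^ k) * s i, ?_⟩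
  rw [Finset.mul_sum]
  have h9 : ∀ i : ℕ, (of ℤ G g - 1) * ((∑ k ∈ Finset.range i, of ℤ G g ^ k) * s i) =
      of ℤ G (g ^ i) * s i - s i := by
    intro i
    rw [← mul_assoc, mul_geom_sum, sub_mul, one_mul, map_pow]
  rw [Finset.sum_congr rfl fun i _ => h9 i, Finset.sum_sub_distrib, h4, h7, sub_zero]

end Pool.Agent.PDR
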