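import Mathlib
import Pool.Agent.PDC.DualB
import Pool.Agent.PDR.TorA

set_option autoImplicit false

/-!
# PDR-TorB: PD3-groups are torsion-free

A nontrivial element `g` of finite order `ℓ` gives `t = g - 1` and the norm `N`, with `t N = N t = 0`.  On finitely generated
projective modules the kernel of `t` is the image of `N` and conversely (`tor_mod_a`, `tor_mod_b`).  A diagram chase in the
resolution of length three gives an element of `P0` with `1 = ℓ * ε y`, a contradiction.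
-/

namespace Pool.Agent.PDR

open MonoidAlgebra Pool.Agent.PDC

private theorem tor_mod {G : Type} [Group G] {Q : Type} [AddCommGroup Q] [Module (MonoidAlgebra ℤ G) Q]
    [Module.Finite (MonoidAlgebra ℤ G) Q] [Module.Projective (MonoidAlgebra ℤ G) Q] (a b : MonoidAlgebra ℤ G)
    (hab : ∀ r, a * r = 0 → ∃ y, r = b * y) (x : Q) (hx : a • x = 0) : ∃ y, x = b • y := by
  obtain ⟨n, e, μ, hμ⟩ := dual_basis (MonoidAlgebra ℤ G) Q
  have h1 : ∀ k, ∃ y, μ k x = b * y := by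
    intro k
    refine hab _ ?_
    rw [← smul_eq_mul, ← map_smul, hx, map_zero]
  choose y hy using h1
  refine ⟨∑ k, y k • e k, ?_⟩
  conv_lhs => rw [hμ x]
  rw [Finset.smul_sum]
  refine Finset.sum_congr rfl fun k _ => ?_
  rw [hy k, mul_smul]

private theorem tor_tN {G : Type} [Group G] (g : G) :
    (of ℤ G g - 1) * (∑ i ∈ Finset.range (orderOf g), of ℤ G (g ^ i)) = 0 := by
  have h1 : (∑ i ∈ Finset.range (orderOf g), of ℤ G (g ^ i)) =
      ∑ i ∈ Finset.range (orderOf g), (of ℤ G g) ^ i :=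
    Finset.sum_congr rfl fun i _ => map_pow _ _ _
  rw [h1, mul_geom_sum, ← map_pow, pow_orderOf_eq_one, map_one, sub_self]

private theorem tor_Nt {G : Type} [Group G] (g : G) :
    (∑ i ∈ Finset.range (orderOf g), of ℤ G (g ^ i)) * (of ℤ G g - 1) = 0 := by
  have h1 : (∑ i ∈ Finset.range (orderOf g), of ℤ G (g ^ i)) =
      ∑ i ∈ Finset.range (orderOf g), (of ℤ G g) ^ i :=
    Finset.sum_congr rfl fun i _ => map_pow _ _ _
  rw [h1, geom_sum_mul, ← map_pow, pow_orderOf_eq_one, map_one, sub_self]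

theorem torsion_free {G : Type} [Group G] (X : PD3 G) (g : G) (hg : g ≠ 1) (m : ℕ) (hm : 0 < m) :
    g ^ m ≠ 1 := by
  intro hgm
  have hfin : IsOfFinOrder g := isOfFinOrder_iff_pow_eq_one.2 ⟨m, hm, hgm⟩
  have hℓ : 0 < orderOf g := hfin.orderOf_pos
  obtain ⟨t, ht⟩ : ∃ t, t = of ℤ G g - 1 := ⟨_, rfl⟩
  obtain ⟨N, hN⟩ : ∃ N, N = ∑ i ∈ Finset.range (orderOf g), of ℤ G (g ^ i) := ⟨_, rfl⟩
  have htN : t * N = 0 := by rw [ht, hN]; exact tor_tN g
  have hNt : N * t = 0 := by rw [ht, hN]; exact tor_Nt g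
  have hat : aug t = 0 := by rw [ht, map_sub, aug_of, map_one, sub_self]
  have haN : aug N = orderOf g := by
    rw [hN, map_sum, Finset.sum_congr rfl fun i _ => aug_of (g ^ i), Finset.sum_const, Finset.card_range,
      nsmul_eq_mul, mul_one]
  have ra : ∀ r, t * r = 0 → ∃ y, r = N * y := fun r hr => by
    rw [ht] at hr; rw [hN]; exact tor_ring_a g hℓ r hr
  have rb : ∀ r, N * r = 0 → ∃ y, r = t * y := fun r hr => by
    rw [hN] at hr; rw [ht]; exact tor_ring_b g hℓ r hr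
  have hts : ∀ {Q : Type} [AddCommGroup Q] [Module (MonoidAlgebra ℤ G) Q] (x : Q), t • N • x = 0 := by
    intro Q _ _ x
    rw [← mul_smul, htN, zero_smul]
  have hNs : ∀ {Q : Type} [AddCommGroup Q] [Module (MonoidAlgebra ℤ G) Q] (x : Q), N • t • x = 0 := by
    intro Q _ _ x
    rw [← mul_smul, hNt, zero_smul]
  -- going up
  obtain ⟨x0, hx0⟩ := X.surj 1
  have h0 : X.ε (t • x0) = 0 := by rw [eps_smul, hat, zero_mul]
  obtain ⟨x1, hx1⟩ := (X.ex0 (t • x0)).1 h0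
  have h1 : X.d1 (N • x1) = 0 := by rw [map_smul, hx1, hNs]
  obtain ⟨x2, hx2⟩ := (X.ex1 (N • x1)).1 h1
  have h2 : X.d2 (t • x2) = 0 := by rw [map_smul, hx2, hts]
  obtain ⟨x3, hx3⟩ := (X.ex2 (t • x2)).1 h2
  have h3 : N • x3 = 0 := by
    apply X.inj3
    rw [map_smul, hx3, hNs, map_zero]
  -- going down
  obtain ⟨y3, hy3⟩ := tor_mod N t rb x3 h3
  have h4 : t • (x2 - X.d3 y3) = 0 := by
    rw [smul_sub, ← map_smul, ← hy3, hx3, sub_self]
  obtain ⟨y2, hy2⟩ := tor_mod t N ra _ h4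
  have e2 : X.d2 (X.d3 y3) = 0 := (X.ex2 _).2 ⟨y3, rfl⟩
  have h5 : N • (x1 - X.d2 y2) = 0 := by
    have h6 := congrArg X.d2 hy2
    rw [map_sub, e2, sub_zero, hx2, map_smul] at h6
    rw [smul_sub, h6, sub_self]
  obtain ⟨y1, hy1⟩ := tor_mod N t rb _ h5
  have e1 : X.d1 (X.d2 y2) = 0 := (X.ex1 _).2 ⟨y2, rfl⟩
  have h7 : t • (x0 - X.d1 y1) = 0 := by
    have h8 := congrArg X.d1 hy1
    rw [map_sub, e1, sub_zero, hx1, map_smul] at h8
    rw [smul_sub, h8, sub_self]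
  obtain ⟨y0, hy0⟩ := tor_mod t N ra _ h7
  have e0 : X.ε (X.d1 y1) = 0 := (X.ex0 _).2 ⟨y1, rfl⟩
  have h9 := congrArg X.ε hy0
  rw [map_sub, e0, sub_zero, hx0, eps_smul, haN] at h9
  have h10 : ((orderOf g : ℕ) : ℤ) ∣ 1 := ⟨_, h9⟩
  have h11 : orderOf g ∣ 1 := by exact_mod_cast h10
  exact hg (orderOf_eq_one_iff.1 (Nat.dvd_one.1 h11))

end Pool.Agent.PDR
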