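import Mathlib
import Pool.Agent.PDC.Rho
import Pool.Agent.PDC.Comp
import Pool.Agent.PDC.FinG
import Pool.Agent.PDC.RelEq
import Pool.Agent.PDC.SH.ThmA
import Pool.Agent.PDC.SH.Virt
import Pool.Agent.PDR.Heart
import Pool.Agent.PDR.Chain
import Pool.Agent.PDR.NoF
import Pool.Agent.PDR.RkB
import Pool.Agent.PDR.Coord
import Pool.Agent.PDR.StepF
import Pool.Agent.PDR.QMap
import Pool.Agent.PDR.ExpM
import Pool.Agent.PDR.TorB
import Pool.Agent.PDR.Lin3

set_option autoImplicit false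

/-!
# PDR-ThmR: finitely generated virtually residually-p subgroups of PD3-groups have finitely
# generated relation modules
-/

namespace Pool.Agent.PDR

open MonoidAlgebra Pool.Agent.PDC

private theorem fg_bot' {G : Type} [Group G] (H : Subgroup G) (hb : H = ⊥) {n : ℕ} (x : Fin n → H) :
    (LinearMap.ker (bd x)).FG := by
  have hs : Function.Surjective (Int.castRingHom (MonoidAlgebra ℤ H)) := by
    intro r
    induction r using zg_induction with
    | h0 => exact ⟨0, by simp⟩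
    | hadd x y hx hy =>
      obtain ⟨a, ha⟩ := hx
      obtain ⟨b, hb⟩ := hy
      exact ⟨a + b, by rw [map_add, ha, hb]⟩
    | hneg x hx =>
      obtain ⟨a, ha⟩ := hx
      exact ⟨-a, by rw [map_neg, ha]⟩
    | hof g =>
      refine ⟨1, ?_⟩
      have hg : g = 1 := by
        apply Subtype.ext
        have h1 : ∀ g : G, g ∈ H → g = 1 := by
          intro g hg
          rw [hb] at hg
          exact Subgroup.mem_bot.1 hg
        exact h1 _ g.2
      rw [hg, map_one, map_one]
  have : IsNoetherianRing (MonoidAlgebra ℤ H) := isNoetherianRing_of_surjective ℤ _ _ hs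
  exact IsNoetherian.noetherian _

/-- Theorem R for a residually-p subgroup. -/
theorem thmR {G : Type} [Group G] (X : PD3 G) (H : Subgroup G) [Group.FG H] (p : ℕ)
    [hpf : Fact p.Prime] (hres : ResP p H) : RelFG H := by
  classical
  by_cases hind : H.index = 0
  swap
  · exact SH.relFG_index X H hind
  intro n x hx
  by_cases hbot : H = ⊥
  · exact fg_bot' H hbot x
  obtain ⟨C⟩ := pchain_exists p H hres
  have htf : ∀ g : H, g ≠ 1 → ∀ m : ℕ, 0 < m → g ^ m ≠ 1 := by
    intro g hg m hm h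
    refine torsion_free X (g : G) (fun h1 => hg (Subtype.ext h1)) m hm ?_
    have := congrArg (Subtype.val) h
    simpa using this
  have hnf := noFix_chain C htf
  obtain ⟨y, g1, σ, hg1, hg1', hσ, hcomp⟩ := comparison X H x hx
  obtain ⟨m, e, μ, hμ⟩ := dual_basis (MonoidAlgebra ℤ G) X.P2
  obtain ⟨ρ, hρ1, hρ2⟩ := rho_exists X H hind
  obtain ⟨w, hw, hwm, hwθ⟩ := sign_exists X
  obtain ⟨l0, hl0⟩ := X.θsurj 1
  have hμ' : ∀ j, ∃ ν : X.P2 →ₗ[MonoidAlgebra ℤ G] MonoidAlgebra ℤ G,
      ν.comp X.d3 = rmul l0 (of ℤ G (x j : G)) - w (x j : G) • l0 := by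
    intro j
    have h0 : X.θ (rmul l0 (of ℤ G (x j : G)) - w (x j : G) • l0) = 0 := by
      rw [map_sub, hwθ, map_zsmul, hl0]
      simp
    obtain ⟨ψ, hψ⟩ := (X.θker _).1 h0
    exact ⟨ψ, hψ.symm⟩
  choose μ' hμ' using hμ'
  obtain ⟨q, hq2, hqρ, hqs⟩ := qmap_exists X H ρ hρ1 hρ2 x y (fun z hz => (hcomp z hz).1)
  -- the coordinates
  let cq : (X.P2 →ₗ[MonoidAlgebra ℤ G] MonoidAlgebra ℤ G) → G →
      (↥(LinearMap.ker (bd x)) →ₗ[MonoidAlgebra ℤ H] MonoidAlgebra ℤ H) := fun ν g =>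
    { toFun := fun z => resH H (ν (q z) * of ℤ G g⁻¹)
      map_add' := fun a b => by rw [map_add, map_add, add_mul, map_add]
      map_smul' := fun a z => by
        rw [hqs, map_smul, smul_eq_mul, mul_assoc, resH_inc_mul]
        rfl }
  have hcq : ∀ ν g z, cq ν g z = resH H (ν (q z) * of ℤ G g⁻¹) := fun _ _ _ => rfl
  let cj : Fin n → (↥(LinearMap.ker (bd x)) →ₗ[MonoidAlgebra ℤ H] MonoidAlgebra ℤ H) := fun j =>
    (LinearMap.proj j).comp (LinearMap.ker (bd x)).subtype
  have hcj : ∀ j z, cj j z = z.1 j := fun _ _ => rfl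
  let cc : (Fin m × G) ⊕ Fin n →
      (↥(LinearMap.ker (bd x)) →ₗ[MonoidAlgebra ℤ H] MonoidAlgebra ℤ H) :=
    Sum.elim (fun t => cq (μ t.1) t.2) cj
  let φ : ↥(LinearMap.ker (bd x)) → ((Fin m × G) ⊕ Fin n → ZMod p) := fun z c =>
    ((aug (cc c z) : ℤ) : ZMod p)
  obtain ⟨N, z0, hz0⟩ := coord_max φ (Fintype.card (Fin n ⊕ Fin n)) (by
    intro N z c hdet
    refine rank_bound C N (Fin n ⊕ Fin n)
      (fun a t => Sum.elim (fun j => cq (μ' j) 1 (z a)) (fun j => cj j (z a)) t)
      (fun a l => cc (c l) (z a)) ?_ hdet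
    intro d hd l
    have hv : ∀ j, ∑ a, d a * C.fD ((z a).1 j) = 0 := fun j => hd (Sum.inr j)
    have hx0 : ∀ j, ∃ ν : X.P2 →ₗ[MonoidAlgebra ℤ G] MonoidAlgebra ℤ G,
        ν.comp X.d3 = rmul l0 (of ℤ G (x j : G)) - w (x j : G) • l0 ∧
          zeta H C.fD d (fun a => q (z a)) ν 1 = 0 :=
      fun j => ⟨μ' j, hμ' j, hd (Sum.inl j)⟩
    have key := fun (ν : X.P2 →ₗ[MonoidAlgebra ℤ G] MonoidAlgebra ℤ G) (g : G) =>
      heart X H hind hbot C.fD hnf ρ hρ1 hρ2 d (fun a => q (z a)) x hx y (fun a => (z a).1)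
        w hw hwm hwθ l0 hl0 (fun a => hq2 (z a)) (fun a => hqρ (z a)) hv hx0 ν g
    change ∑ a, d a * C.fD (cc (c l) (z a)) = 0
    rcases c l with ⟨k, g⟩ | j
    · exact key (μ k) g
    · exact hv j)
  -- the finite set of cosets
  let L : Submodule (MonoidAlgebra ℤ H) ↥(LinearMap.ker (bd x)) :=
    Submodule.span (MonoidAlgebra ℤ H) (Set.range z0)
  have hL : ∀ z : ↥(LinearMap.ker (bd x)), ∃ l ∈ L, z - l ∈ AddSubgroup.closure
      {w : ↥(LinearMap.ker (bd x)) |
        ∃ (a : MonoidAlgebra ℤ H) (u : ↥(LinearMap.ker (bd x))), (p : ℤ) ∣ aug a ∧ w = a • u} := by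
    intro z
    obtain ⟨α, hα⟩ := hz0 z
    let l : ↥(LinearMap.ker (bd x)) := ∑ a, ((α a).val : ℤ) • z0 a
    have hl : l ∈ L := Submodule.sum_mem _ fun a _ =>
      L.toAddSubgroup.zsmul_mem (Submodule.subset_span ⟨a, rfl⟩) _
    have hdiv : ∀ c, (p : ℤ) ∣ aug (cc c (z - l)) := by
      intro c
      rw [← ZMod.intCast_zmod_eq_zero_iff_dvd]
      have h1 : cc c (z - l) = cc c z - ∑ a, ((α a).val : ℤ) • cc c (z0 a) := by
        rw [map_sub, map_sum]
        congr 1
        refine Finset.sum_congr rfl fun a _ => ?_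
        rw [map_zsmul]
      have h2 := hα c
      rw [h1, map_sub, map_sum, Int.cast_sub, Int.cast_sum]
      change ((aug (cc c z) : ℤ) : ZMod p) = _ at h2
      rw [h2, sub_eq_zero]
      refine Finset.sum_congr rfl fun a _ => ?_
      rw [map_zsmul, smul_eq_mul, Int.cast_mul]
      congr 1
      simp
    refine ⟨l, hl, ?_⟩
    refine exp_mP X H x y g1 σ hg1 hg1' hσ (fun p hp => (hcomp p hp).2) e μ hμ p (z - l)
      (q (z - l)) (hq2 _) (fun k g => hdiv (Sum.inl (k, g))) (fun j => hdiv (Sum.inr j))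
  refine fin_gen X H x y g1 σ hg1 hg1' hσ (fun p hp => (hcomp p hp).2) e μ hμ
    (Finset.univ.biUnion (fun a : Fin N => Finset.univ.biUnion
      (fun k => ((μ k (q (z0 a))).coeff.support).image (tr H)))) ?_ ?_
  · intro t ht
    simp only [Finset.mem_biUnion, Finset.mem_image] at ht
    obtain ⟨_, _, _, _, g, _, rfl⟩ := ht
    exact tr_tr H g
  · intro r hr
    refine ⟨q ⟨r, hr⟩, hq2 ⟨r, hr⟩, ?_⟩
    intro k g hkg
    by_contra hmem
    have hzero : ∀ l ∈ L, cq (μ k) g l = 0 := by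
      intro l hl
      have h1 : L ≤ LinearMap.ker (cq (μ k) g) := by
        rw [Submodule.span_le]
        rintro _ ⟨a, rfl⟩
        change cq (μ k) g (z0 a) = 0
        rw [hcq]
        ext h
        rw [coeff_resH, of_apply, coeff_mul_single_apply]
        simp only [inv_inv, mul_one]
        by_contra hne
        apply hmem
        simp only [Finset.mem_biUnion, Finset.mem_image, Finsupp.mem_support_iff, Finset.mem_univ,
          true_and]
        exact ⟨a, k, (h : G) * g, hne, tr_mul H h.2 g⟩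
      exact h1 hl
    have h2 := coord_zero C _ L hL (cq (μ k) g) hzero ⟨r, hr⟩
    rw [hcq] at h2
    apply hkg
    have h5 : (resH H (μ k (q ⟨r, hr⟩) * of ℤ G g⁻¹)).coeff 1 = 0 := by
      rw [h2]; simp
    rw [coeff_resH, of_apply, coeff_mul_single_apply] at h5
    simpa using h5

/-- Theorem R: a finitely generated subgroup of a PD3-group which is virtually residually a finite
`p`-group for some prime `p` has finitely generated relation modules. -/
theorem thmR_virt {G : Type} [Group G] (X : PD3 G) (H : Subgroup G) (hH : H.FG)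
    (hv : VirtRes H) : RelFG H := by
  obtain ⟨p, hp, K₀, hfin, hres⟩ := hv
  have hpf : Fact p.Prime := ⟨hp⟩
  have hHfg : Group.FG H := (Group.fg_iff_subgroup_fg H).2 hH
  have hK₀ : Group.FG K₀ := Subgroup.fg_of_index_ne_zero _
  let e : K₀ ≃* K₀.map H.subtype := K₀.equivMapOfInjective H.subtype H.subtype_injective
  have h1 : Group.FG (K₀.map H.subtype) := Group.fg_of_surjective (f := e.toMonoidHom) e.surjective
  have h2 : ResP p (K₀.map H.subtype) := resP_of_injective e.symm.toMonoidHom e.symm.injective hres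
  have h3 : RelFG (K₀.map H.subtype) := thmR X _ p h2
  exact SH.relFG_of_finiteIndex K₀ hfin.index_ne_zero (relFG_of_equiv e.symm h3)

end Pool.Agent.PDR
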