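import Mathlib
import Pool.Agent.PDR.ThmR
import Pool.Agent.PDC.TreeStep
import Pool.Agent.PDC.FPUp
import Pool.Agent.PDC.FIC

set_option autoImplicit false

/-!
# PDR-HierFP: finitely generated subgroups of members of `HierR` (in a PD3-group) are finitely presented
-/

namespace Pool.Agent.PDR

open Pool.Agent.PDC

/-- A finitely generated group with a finitely presented subgroup of finite index of a prescribed form is
finitely presented (version for subgroups). -/
theorem fp_of_relIndex {Γ : Type} [Group Γ] (L₀ K : Subgroup Γ) (hi : L₀.relIndex K ≠ 0)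
    (hK : K.FG) (h : ∀ B : Subgroup Γ, B ≤ L₀ → B.FG → Group.IsFinitelyPresented B) :
    Group.IsFinitelyPresented K := by
  have hKfg : Group.FG K := (Group.fg_iff_subgroup_fg K).2 hK
  have hfi : (L₀.subgroupOf K).FiniteIndex := ⟨hi⟩
  have h1 : Group.FG (L₀.subgroupOf K) := Subgroup.fg_of_index_ne_zero _
  let e : L₀.subgroupOf K ≃* (L₀.subgroupOf K).map K.subtype :=
    (L₀.subgroupOf K).equivMapOfInjective K.subtype K.subtype_injective
  have h2 : ((L₀.subgroupOf K).map K.subtype).FG :=
    (Group.fg_iff_subgroup_fg _).1 (Group.fg_of_surjective (f := e.toMonoidHom) e.surjective)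
  have h3 : (L₀.subgroupOf K).map K.subtype ≤ L₀ := by
    rintro _ ⟨g, hg, rfl⟩
    exact hg
  have h4 := h _ h3 h2
  have h5 : Group.IsFinitelyPresented (L₀.subgroupOf K) := Group.IsFinitelyPresented.equiv e.symm
  exact fp_of_finiteIndex (L₀.subgroupOf K)

theorem hierR_fp {Γ : Type} [Group Γ] (X : PD3 Γ) (L : Subgroup Γ) (h : HierR L) :
    ∀ K : Subgroup Γ, K ≤ L → K.FG → Group.IsFinitelyPresented K := by
  induction h with
  | base L h => exact h
  | loc L h ih => exact fun K hK hfg => ih K hK hfg K le_rfl hfg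
  | fin L L₀ hle hi h ih =>
    intro K hK hfg
    refine fp_of_relIndex L₀ K ?_ hfg ih
    intro h0
    exact hi (Subgroup.relIndex_eq_zero_of_le_right hK h0)
  | tree L hL V T act hT hadj hinv h ih =>
    intro K hK hfg
    exact tree_step L V T act hT hadj hinv ih K hK hfg (thmR_virt X K hfg (hL K hK hfg))

end Pool.Agent.PDR
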