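import Mathlib
import Pool.Agent.PDR.HierFP
import Pool.Agent.PDR.Lin3
import Pool.Agent.PDC.FP2

set_option autoImplicit false

/-!
# PDR-Final: finite presentability of PD3-groups with hierarchies; linear groups
-/

namespace Pool.Agent.PDR

open Pool.Agent.PDC

/-- `VirtRes` passes to groups which inject. -/
theorem virtRes_of_injective {K K' : Type} [Group K] [Group K'] (j : K →* K')
    (hj : Function.Injective j) (h : VirtRes K') : VirtRes K := by
  obtain ⟨p, hp, K₀, hfin, hres⟩ := h
  have hfin' : (K₀.comap j).FiniteIndex := by
    constructor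
    rw [Subgroup.index_comap]
    exact fun h => hfin.index_ne_zero (Subgroup.index_eq_zero_of_relIndex_eq_zero h)
  refine ⟨p, hp, K₀.comap j, hfin', ?_⟩
  refine resP_of_injective (j.subgroupComap K₀) ?_ hres
  intro a b hab
  apply Subtype.ext
  apply hj
  exact congrArg Subtype.val hab

/-- The two descriptions of the intersection are isomorphic. -/
private noncomputable def swapEq {G : Type} [Group G] (A B : Subgroup G) :
    A.subgroupOf B ≃* B.subgroupOf A :=
  ((MulEquiv.subgroupCongr (Subgroup.inf_subgroupOf_right A B).symm).trans
    (Subgroup.subgroupOfEquivOfLe (inf_le_right : A ⊓ B ≤ B))).trans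
  ((Subgroup.subgroupOfEquivOfLe (inf_le_left : A ⊓ B ≤ A)).symm.trans
    (MulEquiv.subgroupCongr (Subgroup.inf_subgroupOf_left B A)))

/-- Let `G` be a PD3-group and `G1` a subgroup of finite index acting on a tree with all vertex
stabilisers in `HierR`.  Every finitely generated subgroup `K` of `G` which has finite index or
which is virtually residually a finite `p`-group for some `p` is finitely presented. -/
theorem thmL {G : Type} [Group G] (X : PD3 G) (G1 : Subgroup G) [G1.FiniteIndex]
    (V : Type) (T : SimpleGraph V) (act : MulAction G1 V) (hT : T.IsTree)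
    (hadj : ∀ (g : G1) (v w : V), T.Adj v w → T.Adj (g • v) (g • w))
    (hinv : ∀ (g : G1) (v w : V), T.Adj v w → g • v = w → g • w ≠ v)
    (h : ∀ v : V, HierR (MulAction.stabilizer G1 v)) (K : Subgroup G) (hK : K.FG)
    (hE : K.FiniteIndex ∨ VirtRes K) :
    Group.IsFinitelyPresented K := by
  obtain ⟨X1⟩ := pd3_finiteIndex X G1
  have hKfg : Group.FG K := (Group.fg_iff_subgroup_fg K).2 hK
  have hNfg : Group.FG (G1.subgroupOf K) := Subgroup.fg_of_index_ne_zero _
  have h1 : Group.FG (K.subgroupOf G1) :=
    Group.fg_of_surjective (f := (swapEq G1 K).toMonoidHom) (swapEq G1 K).surjective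
  have hrel : RelFG (K.subgroupOf G1) := by
    rcases hE with hE | hE
    · have hfi : (K.subgroupOf G1).FiniteIndex := inferInstance
      exact SH.relFG_index X1 _ hfi.index_ne_zero
    · refine thmR_virt X1 _ ((Group.fg_iff_subgroup_fg _).1 h1) ?_
      refine virtRes_of_injective (K' := K)
        ((G1.subgroupOf K).subtype.comp (swapEq G1 K).symm.toMonoidHom) ?_ hE
      exact (Subtype.val_injective).comp (swapEq G1 K).symm.injective
  have h2 : Group.IsFinitelyPresented (K.subgroupOf G1) := by
    refine tree_fp _ hrel V T hT (fun g v w h3 => hadj g v w h3)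
      (fun g v w h3 => hinv g v w h3) ?_
    intro v B hB hBfg
    have hle : B.map (K.subgroupOf G1).subtype ≤ MulAction.stabilizer G1 v := by
      rintro _ ⟨b, hb, rfl⟩
      exact hB hb
    have hmfg : (B.map (K.subgroupOf G1).subtype).FG := by
      have hg : Group.FG B := (Group.fg_iff_subgroup_fg B).2 hBfg
      have hg2 : Group.FG (B.map (K.subgroupOf G1).subtype) :=
        Group.fg_of_surjective
          (f := (B.equivMapOfInjective (K.subgroupOf G1).subtype
            (K.subgroupOf G1).subtype_injective).toMonoidHom)
          (B.equivMapOfInjective (K.subgroupOf G1).subtype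
            (K.subgroupOf G1).subtype_injective).surjective
      exact (Group.fg_iff_subgroup_fg _).1 hg2
    have h4 := hierR_fp X1 _ (h v) _ hle hmfg
    exact Group.IsFinitelyPresented.equiv
      (B.equivMapOfInjective (K.subgroupOf G1).subtype (K.subgroupOf G1).subtype_injective).symm
  have h3 : Group.IsFinitelyPresented (G1.subgroupOf K) :=
    Group.IsFinitelyPresented.equiv (swapEq G1 K).symm
  exact fp_of_finiteIndex (G1.subgroupOf K)

/-- If all finitely generated subgroups are virtually residually-p then the residual condition in
`HierR` is automatic. -/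
theorem hierR_of_hierL {Γ : Type} [Group Γ] (hΓ : ∀ K : Subgroup Γ, K.FG → VirtRes K)
    (L : Subgroup Γ) (h : HierL L) : HierR L := by
  induction h with
  | base L h => exact HierR.base L h
  | loc L h ih => exact HierR.loc L ih
  | fin L L₀ hle hi h ih => exact HierR.fin L L₀ hle hi ih
  | tree L V T act hT hadj hinv h ih =>
    exact HierR.tree L (fun K _ hfg => hΓ K hfg) V T act hT hadj hinv ih

/-- Finitely generated subgroups of linear groups are virtually residually-p. -/
theorem virtRes_of_linear {G : Type} [Group G] (K : Type) [Field K] (d : ℕ)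
    (φ : G →* GL (Fin d) K) (hφ : Function.Injective φ) (H : Subgroup G) (hH : H.FG) :
    VirtRes H := by
  have hg : Group.FG H := (Group.fg_iff_subgroup_fg H).2 hH
  exact linear_virtRes K d H (φ.comp H.subtype) (hφ.comp Subtype.val_injective)

end Pool.Agent.PDR
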